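import Mathlib
import Pool.Agent.Helper954.Hopf.D1c

/-!
# No uniformly Lipschitz retractions of the finite subset spaces of a Hilbert space

The regular `p`-gons in the complex lines of a complex Hilbert space, and the theorem of Dold.
-/

set_option autoImplicit false

open Set Filter Topology Metric
open scoped Real

namespace Pool.Agent.Q183.FinRetract

open Pool.Agent.Helper954.Hopf.Dold.D1c (dold_cover dc_pow_add)

/-- the root of unity -/
noncomputable def om (p : ℕ) : ℂ := Complex.exp (2 * Real.pi * Complex.I / p)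

/-- powers of the root of unity -/
noncomputable def ee (p : ℕ) (a : ZMod p) : ℂ := om p ^ a.val

section roots

variable {p : ℕ} [hpf : Fact p.Prime]

theorem om_pow : om p ^ p = 1 := by
  have hp : (p : ℂ) ≠ 0 := by exact_mod_cast hpf.out.ne_zero
  rw [om, ← Complex.exp_nat_mul]
  have : (p : ℂ) * (2 * Real.pi * Complex.I / p) = 2 * Real.pi * Complex.I := by
    field_simp
  rw [this, Complex.exp_two_pi_mul_I]

theorem om_norm : ‖om p‖ = 1 := by
  have h1 : ‖om p‖ ^ p = 1 := by rw [← norm_pow, om_pow, norm_one]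
  exact (pow_eq_one_iff_of_nonneg (norm_nonneg _) hpf.out.ne_zero).mp h1

theorem om_prim : IsPrimitiveRoot (om p) p :=
  Complex.isPrimitiveRoot_exp p hpf.out.ne_zero

theorem ee_norm (a : ZMod p) : ‖ee p a‖ = 1 := by
  rw [ee, norm_pow, om_norm, one_pow]

theorem ee_add (a b : ZMod p) : ee p (a + b) = ee p a * ee p b :=
  dc_pow_add p (om p) om_pow a b

theorem ee_zero : ee p 0 = 1 := by simp [ee]

theorem ee_one : ee p 1 = om p := by
  rw [ee, ZMod.val_one_eq_one_mod, Nat.mod_eq_of_lt hpf.out.one_lt, pow_one]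

theorem ee_eq_one {a : ZMod p} (h : ee p a = 1) : a = 0 := by
  have h1 := (om_prim (p := p)).dvd_of_pow_eq_one a.val h
  rw [← ZMod.val_eq_zero]
  exact Nat.eq_zero_of_dvd_of_lt h1 (ZMod.val_lt a)

theorem exists_gap : ∃ h : ℝ, 0 < h ∧ ∀ a b : ZMod p, ‖ee p a - ee p b‖ < 2 * h → a = b := by
  obtain ⟨a0, -, h0⟩ := Finset.exists_min_image (Finset.univ : Finset (ZMod p))
    (fun a => if a = 0 then (1 : ℝ) else ‖ee p a - 1‖) Finset.univ_nonempty
  have hpos : 0 < (if a0 = 0 then (1 : ℝ) else ‖ee p a0 - 1‖) := by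
    split_ifs with h
    · exact one_pos
    · rw [norm_pos_iff, sub_ne_zero]
      exact fun h1 => h (ee_eq_one h1)
  refine ⟨(if a0 = 0 then (1 : ℝ) else ‖ee p a0 - 1‖) / 2, by positivity, fun a b hab => ?_⟩
  by_contra hne
  have h1 := h0 (a - b) (Finset.mem_univ _)
  rw [if_neg (sub_ne_zero.2 hne)] at h1
  have h2 : ‖ee p a - ee p b‖ = ‖ee p (a - b) - 1‖ := by
    have h3 : ee p a - ee p b = ee p b * (ee p (a - b) - 1) := by
      rw [mul_sub, ← ee_add, mul_one]
      congr 2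
      ring
    rw [h3, norm_mul, ee_norm, one_mul]
  rw [h2] at hab
  linarith

end roots

section main

variable {H : Type} [NormedAddCommGroup H] [InnerProductSpace ℂ H]

/-- normalisation -/
noncomputable def nz (z : ℂ) : ℂ := z / (‖z‖ : ℂ)

theorem nz_norm {z : ℂ} (h : z ≠ 0) : ‖nz z‖ = 1 := by
  rw [nz, norm_div, Complex.norm_real, norm_norm, div_self (norm_ne_zero_iff.2 h)]

theorem nz_mul {w : ℂ} (hw : ‖w‖ = 1) (z : ℂ) : nz (w * z) = w * nz z := by
  rw [nz, nz, norm_mul, hw, one_mul, mul_div_assoc]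

theorem nz_sub {z w : ℂ} (hz : 3 / 4 ≤ ‖z‖) (hw : w ≠ 0) : ‖nz z - nz w‖ ≤ 3 * ‖z - w‖ := by
  have hz0 : 0 < ‖z‖ := by linarith
  have hw0 : 0 < ‖w‖ := norm_pos_iff.2 hw
  have hzc : (‖z‖ : ℂ) ≠ 0 := by exact_mod_cast hz0.ne'
  have hwc : (‖w‖ : ℂ) ≠ 0 := by exact_mod_cast hw0.ne'
  have h1 : nz z - nz w = (z - w) / (‖z‖ : ℂ) + (w / (‖w‖ : ℂ)) * (((‖w‖ - ‖z‖ : ℝ) : ℂ) / (‖z‖ : ℂ)) := by
    rw [nz, nz]
    push_cast
    field_simp
    ring
  rw [h1]
  refine (norm_add_le _ _).trans ?_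
  rw [norm_div, norm_mul, norm_div, norm_div, Complex.norm_real, Complex.norm_real,
    Complex.norm_real, norm_norm, norm_norm, div_self hw0.ne', one_mul, Real.norm_eq_abs]
  have h2 : |‖w‖ - ‖z‖| ≤ ‖z - w‖ := by
    rw [abs_sub_comm]; exact abs_norm_sub_norm_le z w
  have h3 : ‖z - w‖ / ‖z‖ ≤ 4 / 3 * ‖z - w‖ := by
    rw [div_le_iff₀ hz0]
    nlinarith [norm_nonneg (z - w)]
  have h4 : |‖w‖ - ‖z‖| / ‖z‖ ≤ 4 / 3 * ‖z - w‖ := by
    rw [div_le_iff₀ hz0]
    nlinarith [norm_nonneg (z - w)]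
  nlinarith [norm_nonneg (z - w)]

/-- the directions of the points of `B v`, in the complex line of `v` -/
def N (B : H → Finset H) (v : H) : Set ℂ := (fun b => nz (inner ℂ v b)) '' (B v : Set H)

/-- the distance of `c` from the directions -/
noncomputable def f (B : H → Finset H) (c : ℂ) (v : H) : ℝ := infDist c (N B v)

/-- the properties of the retracted polygons -/
structure Family (p : ℕ) (K : ℝ) (B : H → Finset H) : Prop where
  nonempty : ∀ v, (B v).Nonempty
  card : ∀ v, (B v).card < p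
  near : ∀ v, ‖v‖ = 1 → ∀ b ∈ B v, ∃ j : ZMod p, ‖b - ee p j • v‖ < 1 / 4
  lip : ∀ v w, ∀ b ∈ B v, ∀ ε : ℝ, 0 < ε → ∃ b' ∈ B w, ‖b - b'‖ < K * ‖v - w‖ + ε
  rot : ∀ v, B (om p • v) = B v

variable {p : ℕ} [hpf : Fact p.Prime] {K : ℝ} {B : H → Finset H}

theorem Family.norm_le (hB : Family p K B) {v : H} (hv : ‖v‖ = 1) {b : H} (hb : b ∈ B v) :
    ‖b‖ ≤ 5 / 4 := by
  obtain ⟨j, hj⟩ := hB.near v hv b hb
  have h1 : b = (b - ee p j • v) + ee p j • v := by abel
  rw [h1]
  refine (norm_add_le _ _).trans ?_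
  rw [norm_smul, ee_norm, hv]
  linarith

theorem Family.inner_ge (hB : Family p K B) {v : H} (hv : ‖v‖ = 1) {b : H} (hb : b ∈ B v) :
    3 / 4 ≤ ‖inner ℂ v b‖ := by
  obtain ⟨j, hj⟩ := hB.near v hv b hb
  have h1 : inner ℂ v b = inner ℂ v (b - ee p j • v) + ee p j := by
    rw [inner_sub_right, inner_smul_right, inner_self_eq_norm_sq_to_K, hv]
    simp
  have h2 : ‖inner ℂ v (b - ee p j • v)‖ ≤ 1 / 4 := by
    refine (norm_inner_le_norm _ _).trans ?_
    rw [hv, one_mul]
    exact hj.le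
  have h3 : ee p j = inner ℂ v b - inner ℂ v (b - ee p j • v) := by rw [h1]; ring
  have h4 := ee_norm j
  rw [h3] at h4
  have h5 := norm_sub_le (inner ℂ v b) (inner ℂ v (b - ee p j • v))
  linarith

theorem Family.inner_ne (hB : Family p K B) {v : H} (hv : ‖v‖ = 1) {b : H} (hb : b ∈ B v) :
    inner ℂ v b ≠ 0 := by
  intro h
  have := hB.inner_ge hv hb
  rw [h, norm_zero] at this
  norm_num at this

omit hpf in
theorem N_nonempty (hB : Family p K B) (v : H) : (N B v).Nonempty := by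
  obtain ⟨b, hb⟩ := hB.nonempty v
  exact ⟨_, b, hb, rfl⟩

theorem f_le (hB : Family p K B) (c : ℂ) {v w : H} (hv : ‖v‖ = 1) (hw : ‖w‖ = 1) :
    f B c w ≤ f B c v + 3 * (5 / 4 + K) * ‖v - w‖ := by
  refine le_of_forall_pos_le_add fun ε hε => ?_
  have h1 : infDist c (N B v) < f B c v + ε / 2 := by unfold f; linarith
  obtain ⟨y, ⟨b, hb, rfl⟩, hy⟩ := (infDist_lt_iff (N_nonempty hB v)).1 h1
  obtain ⟨b', hb', hbb⟩ := hB.lip v w b hb (ε / 6) (by positivity)
  have h2 : f B c w ≤ dist c (nz (inner ℂ w b')) := infDist_le_dist_of_mem ⟨b', hb', rfl⟩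
  have h3 : ‖nz (inner ℂ v b) - nz (inner ℂ w b')‖ ≤ 3 * ‖inner ℂ v b - inner ℂ w b'‖ :=
    nz_sub (hB.inner_ge hv hb) (hB.inner_ne hw hb')
  have h4 : ‖inner ℂ v b - inner ℂ w b'‖ ≤ 5 / 4 * ‖v - w‖ + ‖b - b'‖ := by
    have h5 : inner ℂ v b - inner ℂ w b' = inner ℂ (v - w) b + inner ℂ w (b - b') := by
      rw [inner_sub_left, inner_sub_right]; ring
    rw [h5]
    refine (norm_add_le _ _).trans (add_le_add ?_ ?_)
    · refine (norm_inner_le_norm _ _).trans ?_
      rw [mul_comm]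
      exact mul_le_mul_of_nonneg_right (hB.norm_le hv hb) (norm_nonneg _)
    · refine (norm_inner_le_norm _ _).trans ?_
      rw [hw, one_mul]
  have h5 : dist c (nz (inner ℂ w b')) ≤ dist c (nz (inner ℂ v b)) +
      ‖nz (inner ℂ v b) - nz (inner ℂ w b')‖ := by
    rw [← dist_eq_norm]; exact dist_triangle _ _ _
  simp only at hy
  nlinarith

theorem f_rot (hB : Family p K B) (c : ℂ) (v : H) : f B c (om p • v) = f B (om p * c) v := by
  have hn : ‖(starRingEnd ℂ) (om p)‖ = 1 := by rw [RCLike.norm_conj, om_norm]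
  have hiso : Isometry fun y : ℂ => (starRingEnd ℂ) (om p) * y := by
    refine Isometry.of_dist_eq fun x y => ?_
    rw [dist_eq_norm, dist_eq_norm, ← mul_sub, norm_mul, hn, one_mul]
  have hcc : (starRingEnd ℂ) (om p) * (om p * c) = c := by
    rw [← mul_assoc, mul_comm ((starRingEnd ℂ) (om p)), Complex.mul_conj,
      Complex.normSq_eq_norm_sq, om_norm]
    simp
  have hN : N B (om p • v) = (fun y : ℂ => (starRingEnd ℂ) (om p) * y) '' N B v := by
    unfold N
    rw [hB.rot, image_image]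
    refine image_congr fun b _ => ?_
    rw [inner_smul_left, nz_mul hn]
  unfold f
  rw [hN]
  conv_lhs => rw [← hcc]
  exact infDist_image hiso

/-- the vector of the polygon -/
noncomputable def Vv {m : ℕ} (e : ℕ → H) (x : Fin m → ℂ) : H :=
  (((‖∑ i, x i • e i‖⁻¹ : ℝ)) : ℂ) • ∑ i, x i • e i

theorem E_ne {m : ℕ} {e : ℕ → H} (he : LinearIndependent ℂ e) {x : Fin m → ℂ} (hx : x ≠ 0) :
    ∑ i, x i • e i ≠ 0 := by
  intro h
  apply hx
  have he' : LinearIndependent ℂ fun i : Fin m => e i := he.comp _ Fin.val_injective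
  funext i
  exact Fintype.linearIndependent_iff.1 he' x h i

theorem Vv_norm {m : ℕ} {e : ℕ → H} (he : LinearIndependent ℂ e) {x : Fin m → ℂ} (hx : x ≠ 0) :
    ‖Vv e x‖ = 1 := by
  have h := norm_ne_zero_iff.2 (E_ne he hx)
  rw [Vv, norm_smul, Complex.norm_real, norm_inv, norm_norm, inv_mul_cancel₀ h]

theorem Vv_rot {m : ℕ} (e : ℕ → H) (x : Fin m → ℂ) :
    Vv e (fun i => om p * x i) = om p • Vv e x := by
  have h1 : ∑ i, (om p * x i) • e i = om p • ∑ i, x i • e i := by
    rw [Finset.smul_sum]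
    refine Finset.sum_congr rfl fun i _ => ?_
    rw [smul_smul]
  unfold Vv
  rw [h1, norm_smul, om_norm, one_mul, smul_comm]

theorem Vv_cont {m : ℕ} {e : ℕ → H} (he : LinearIndependent ℂ e) {x : Fin m → ℂ} (hx : x ≠ 0) :
    ContinuousAt (Vv e) x := by
  have h1 : Continuous fun x : Fin m → ℂ => ∑ i, x i • e i := by fun_prop
  unfold Vv
  have h2 : ContinuousAt (fun x : Fin m → ℂ => ‖∑ i, x i • e i‖⁻¹) x :=
    h1.norm.continuousAt.inv₀ (norm_ne_zero_iff.2 (E_ne he hx))
  exact (Complex.continuous_ofReal.continuousAt.comp h2).smul h1.continuousAt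

theorem f_cont (hB : Family p K B) (hK : 0 ≤ K) {m : ℕ} {e : ℕ → H}
    (he : LinearIndependent ℂ e) (c : ℂ) {x : Fin m → ℂ} (hx : x ≠ 0) :
    ContinuousAt (fun x => f B c (Vv e x)) x := by
  rw [Metric.continuousAt_iff']
  intro ε hε
  have h1 := Metric.continuousAt_iff'.1 (Vv_cont he hx) (ε / (3 * (5 / 4 + K) + 1))
    (by positivity)
  filter_upwards [h1, isOpen_ne.mem_nhds hx] with y hy hy0
  have hv := Vv_norm he hx
  have hw := Vv_norm he hy0
  rw [dist_eq_norm] at hy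
  rw [lt_div_iff₀ (by positivity)] at hy
  have h2 := f_le hB c hv hw
  have h3 := f_le hB c hw hv
  rw [norm_sub_rev] at h2
  rw [Real.dist_eq, abs_lt]
  constructor <;> nlinarith [norm_nonneg (Vv e y - Vv e x)]

/-- the condition of the labels -/
def P (B : H → Finset H) (c : ℂ) (T : Finset (ZMod p)) (d : ZMod p) (v : H) : Prop :=
  T.Nonempty ∧ T ≠ Finset.univ ∧
    ∀ a ∈ T, ∀ a', a' ∉ T → f B (ee p (a' - d) * c) v < f B (ee p (a - d) * c) v

theorem P_unique {c : ℂ} {T : Finset (ZMod p)} {d d' : ZMod p} {v : H} (h : P B c T d v)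
    (h' : P B c T d' v) : d = d' := by
  classical
  obtain ⟨h1, h2, h3⟩ := h
  obtain ⟨-, -, h3'⟩ := h'
  obtain ⟨S, hS⟩ : ∃ S, S = T.map (Equiv.subRight d).toEmbedding := ⟨_, rfl⟩
  obtain ⟨S', hS'⟩ : ∃ S, S = T.map (Equiv.subRight d').toEmbedding := ⟨_, rfl⟩
  have hmem : ∀ s, s ∈ S ↔ s + d ∈ T := by
    intro s
    rw [hS, Finset.mem_map]
    constructor
    · rintro ⟨a, ha, rfl⟩
      simpa using ha
    · intro ha
      exact ⟨s + d, ha, by simp⟩
  have hmem' : ∀ s, s ∈ S' ↔ s + d' ∈ T := by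
    intro s
    rw [hS', Finset.mem_map]
    constructor
    · rintro ⟨a, ha, rfl⟩
      simpa using ha
    · intro ha
      exact ⟨s + d', ha, by simp⟩
  have hcard : S.card = S'.card := by rw [hS, hS', Finset.card_map, Finset.card_map]
  have hgt : ∀ s ∈ S, ∀ s', s' ∉ S → f B (ee p s' * c) v < f B (ee p s * c) v := by
    intro s hs s' hs'
    have := h3 (s + d) ((hmem s).1 hs) (s' + d) (fun h => hs' ((hmem s').2 h))
    simpa using this
  have hgt' : ∀ s ∈ S', ∀ s', s' ∉ S' → f B (ee p s' * c) v < f B (ee p s * c) v := by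
    intro s hs s' hs'
    have := h3' (s + d') ((hmem' s).1 hs) (s' + d') (fun h => hs' ((hmem' s').2 h))
    simpa using this
  have hsub : S ⊆ S' := by
    by_contra hcon
    obtain ⟨s, hs, hs'⟩ := Finset.not_subset.1 hcon
    have h4 : S' ⊆ S := by
      intro s1 hs1
      by_contra hs2
      exact lt_asymm (hgt s hs s1 hs2) (hgt' s1 hs1 s hs')
    have h5 := Finset.eq_of_subset_of_card_le h4 hcard.le
    rw [h5] at hs'
    exact hs' hs
  have heq : S = S' := Finset.eq_of_subset_of_card_le hsub hcard.ge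
  by_contra hne
  have hδ : d' - d ≠ 0 := sub_ne_zero.2 (Ne.symm hne)
  have hclosed : ∀ a ∈ T, a + (d' - d) ∈ T := by
    intro a ha
    have h4 : a - d ∈ S := (hmem _).2 (by simpa using ha)
    rw [heq, hmem'] at h4
    have h5 : a - d + d' = a + (d' - d) := by ring
    rwa [h5] at h4
  have hclosed' : ∀ k : ℕ, ∀ a ∈ T, a + k * (d' - d) ∈ T := by
    intro k
    induction k with
    | zero => intro a ha; simpa using ha
    | succ k ih =>
      intro a ha
      have h4 := hclosed _ (ih a ha)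
      have h5 : a + k * (d' - d) + (d' - d) = a + ((k + 1 : ℕ) : ZMod p) * (d' - d) := by
        push_cast; ring
      rwa [h5] at h4
  apply h2
  obtain ⟨a, ha⟩ := h1
  refine Finset.eq_univ_of_forall fun y => ?_
  have h4 := hclosed' (((y - a) / (d' - d) : ZMod p)).val a ha
  rw [ZMod.natCast_zmod_val, div_mul_cancel₀ _ hδ] at h4
  simpa using h4

theorem P_rot (hB : Family p K B) (c : ℂ) (T : Finset (ZMod p)) (d : ZMod p) (v : H) :
    P B c T (d + 1) (om p • v) ↔ P B c T d v := by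
  have h1 : ∀ a : ZMod p, f B (ee p (a - (d + 1)) * c) (om p • v) = f B (ee p (a - d) * c) v := by
    intro a
    rw [f_rot hB, ← mul_assoc, ← ee_one, ← ee_add]
    congr 3
    ring
  unfold P
  simp only [h1]

/-- there is no such family -/
theorem no_family (hp2 : p ≠ 2) (hB : Family p K B) (hK : 0 ≤ K) {e : ℕ → H}
    (he : LinearIndependent ℂ e) : False := by
  classical
  obtain ⟨h, hh, hgap⟩ := exists_gap (p := p)
  obtain ⟨t, hts, htf, htc⟩ := finite_cover_balls_of_compact (isCompact_sphere (0 : ℂ) 1) hh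
  obtain ⟨t', ht'⟩ : ∃ t' : Finset ℂ, ∀ c, c ∈ t' ↔ c ∈ t := ⟨htf.toFinset, fun c => by simp⟩
  obtain ⟨O, hO⟩ : ∃ O : {c // c ∈ t'} × Finset (ZMod p) →
      Set (Fin (Fintype.card ({c // c ∈ t'} × Finset (ZMod p)) + 1) → ℂ),
      O = fun j => {x | x ≠ 0 ∧ ∃ d, P B j.1.1 j.2 d (Vv e x)} := ⟨_, rfl⟩
  obtain ⟨lab, hlab⟩ : ∃ lab : {c // c ∈ t'} × Finset (ZMod p) →
      (Fin (Fintype.card ({c // c ∈ t'} × Finset (ZMod p)) + 1) → ℂ) → ZMod p,
      lab = fun j x => if h : ∃ d, P B j.1.1 j.2 d (Vv e x) then h.choose else 0 := ⟨_, rfl⟩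
  have hact : ∀ x : Fin (Fintype.card ({c // c ∈ t'} × Finset (ZMod p)) + 1) → ℂ,
      (fun i => Complex.exp (2 * Real.pi * Complex.I / p) ^ (1 : ZMod p).val * x i) =
        fun i => om p * x i := by
    intro x
    funext i
    rw [ZMod.val_one_eq_one_mod, Nat.mod_eq_of_lt hpf.out.one_lt, pow_one, om]
  have c1 : ∀ j, IsOpen (O j) := by
    subst hO
    rintro ⟨⟨c, hc⟩, T⟩
    rw [isOpen_iff_mem_nhds]
    rintro x ⟨hx0, d, hd⟩
    have h1 : ∀ᶠ y in 𝓝 x, P B c T d (Vv e y) := by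
      have h2 : ∀ᶠ y in 𝓝 x, ∀ a ∈ T, ∀ a' ∈ Tᶜ,
          f B (ee p (a' - d) * c) (Vv e y) < f B (ee p (a - d) * c) (Vv e y) := by
        rw [Finset.eventually_all]
        intro a ha
        rw [Finset.eventually_all]
        intro a' ha'
        exact (f_cont hB hK he _ hx0).eventually_lt (f_cont hB hK he _ hx0)
          (hd.2.2 a ha a' (by simpa using ha'))
      filter_upwards [h2] with y hy
      exact ⟨hd.1, hd.2.1, fun a ha a' ha' => hy a ha a' (by simpa using ha')⟩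
    filter_upwards [h1, isOpen_ne.mem_nhds hx0] with y hy hy0
    exact ⟨hy0, d, hy⟩
  have c2 : ∀ j, ∀ x ∈ O j, ∀ᶠ y in 𝓝 x, lab j y = lab j x := by
    subst hO hlab
    rintro ⟨⟨c, hc⟩, T⟩ x ⟨hx0, d, hd⟩
    have h1 : ∀ᶠ y in 𝓝 x, P B c T d (Vv e y) := by
      have h2 : ∀ᶠ y in 𝓝 x, ∀ a ∈ T, ∀ a' ∈ Tᶜ,
          f B (ee p (a' - d) * c) (Vv e y) < f B (ee p (a - d) * c) (Vv e y) := by
        rw [Finset.eventually_all]
        intro a ha
        rw [Finset.eventually_all]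
        intro a' ha'
        exact (f_cont hB hK he _ hx0).eventually_lt (f_cont hB hK he _ hx0)
          (hd.2.2 a ha a' (by simpa using ha'))
      filter_upwards [h2] with y hy
      exact ⟨hd.1, hd.2.1, fun a ha a' ha' => hy a ha a' (by simpa using ha')⟩
    filter_upwards [h1] with y hy
    have hex : ∃ d, P B c T d (Vv e y) := ⟨d, hy⟩
    have hex' : ∃ d, P B c T d (Vv e x) := ⟨d, hd⟩
    rw [dif_pos hex, dif_pos hex', P_unique hex.choose_spec hy, P_unique hex'.choose_spec hd]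
  have c3 : ∀ j, ∀ x ∈ O j,
      (fun i => Complex.exp (2 * Real.pi * Complex.I / p) ^ (1 : ZMod p).val * x i) ∈ O j := by
    subst hO
    rintro ⟨⟨c, hc⟩, T⟩ x ⟨hx0, d, hd⟩
    rw [hact x]
    refine ⟨?_, d + 1, ?_⟩
    · intro h1
      apply hx0
      funext i
      have h2 := congrFun h1 i
      simp only [Pi.zero_apply, mul_eq_zero] at h2
      rcases h2 with h2 | h2
      · exfalso
        have := om_norm (p := p)
        rw [h2, norm_zero] at this
        exact zero_ne_one this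
      · exact h2
    · rw [Vv_rot, P_rot hB]
      exact hd
  have c4 : ∀ j, ∀ x ∈ O j,
      lab j (fun i => Complex.exp (2 * Real.pi * Complex.I / p) ^ (1 : ZMod p).val * x i) =
        lab j x + 1 := by
    subst hO hlab
    rintro ⟨⟨c, hc⟩, T⟩ x ⟨hx0, d, hd⟩
    rw [hact x]
    have hy : P B c T (d + 1) (Vv e (fun i => om p * x i)) := by
      rw [Vv_rot, P_rot hB]
      exact hd
    have hex : ∃ d, P B c T d (Vv e (fun i => om p * x i)) := ⟨d + 1, hy⟩
    have hex' : ∃ d, P B c T d (Vv e x) := ⟨d, hd⟩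
    beta_reduce
    rw [dif_pos hex, dif_pos hex', P_unique hex.choose_spec hy, P_unique hex'.choose_spec hd]
  obtain ⟨x, hx0, hx⟩ := dold_cover p hp2 (fun _ => 1) (fun _ => one_ne_zero)
    (by rw [Fintype.card_fin]; omega) O c1 lab c2 c3 c4
  subst hO
  have hV := Vv_norm he hx0
  have hconst : ∀ c ∈ t', ∀ a b : ZMod p,
      f B (ee p a * c) (Vv e x) = f B (ee p b * c) (Vv e x) := by
    intro c hc
    by_contra hcon
    push Not at hcon
    obtain ⟨a, b, hab⟩ := hcon
    obtain ⟨a0, -, ha0⟩ := Finset.exists_max_image (Finset.univ : Finset (ZMod p))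
      (fun a => f B (ee p a * c) (Vv e x)) Finset.univ_nonempty
    refine hx ⟨⟨c, hc⟩, Finset.univ.filter fun a =>
      f B (ee p a * c) (Vv e x) = f B (ee p a0 * c) (Vv e x)⟩ ⟨hx0, 0, ⟨a0, by simp⟩, ?_, ?_⟩
    · intro h1
      have h2 : ∀ a, f B (ee p a * c) (Vv e x) = f B (ee p a0 * c) (Vv e x) := by
        intro a
        have : a ∈ (Finset.univ : Finset (ZMod p)) := Finset.mem_univ a
        rw [← h1] at this
        simpa using this
      exact hab ((h2 a).trans (h2 b).symm)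
    · intro a1 ha1 a2 ha2
      simp only [Finset.mem_filter, Finset.mem_univ, true_and] at ha1 ha2
      simp only [sub_zero]
      rw [ha1]
      exact lt_of_le_of_ne (ha0 a2 (Finset.mem_univ _)) ha2
  obtain ⟨b0, hb0⟩ := hB.nonempty (Vv e x)
  have hz0 : nz (inner ℂ (Vv e x) b0) ∈ sphere (0 : ℂ) 1 := by
    rw [mem_sphere_zero_iff_norm]
    exact nz_norm (hB.inner_ne hV hb0)
  obtain ⟨c, hc, hzc⟩ := mem_iUnion₂.1 (htc hz0)
  have hc1 : ‖c‖ = 1 := by
    have := hts hc
    rwa [mem_sphere_zero_iff_norm] at this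
  have hlt : ∀ a : ZMod p, ∃ b ∈ B (Vv e x),
      ‖ee p a * c - nz (inner ℂ (Vv e x) b)‖ < h := by
    intro a
    have h1 : f B (ee p a * c) (Vv e x) < h := by
      rw [hconst c ((ht' c).2 hc) a 0, ee_zero, one_mul]
      refine lt_of_le_of_lt (infDist_le_dist_of_mem ⟨b0, hb0, rfl⟩) ?_
      rw [dist_comm]
      exact mem_ball.1 hzc
    obtain ⟨y, ⟨b, hb, rfl⟩, hy⟩ := (infDist_lt_iff (N_nonempty hB _)).1 h1
    exact ⟨b, hb, by rw [← dist_eq_norm]; exact hy⟩
  choose g hg1 hg2 using hlt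
  have hinj : Function.Injective g := by
    intro a b hab
    apply hgap
    have h1 := hg2 a
    have h2 := hg2 b
    rw [← hab] at h2
    have h3 : ‖ee p a - ee p b‖ = ‖(ee p a * c - nz (inner ℂ (Vv e x) (g a))) -
        (ee p b * c - nz (inner ℂ (Vv e x) (g a)))‖ := by
      have : (ee p a * c - nz (inner ℂ (Vv e x) (g a))) -
        (ee p b * c - nz (inner ℂ (Vv e x) (g a))) = (ee p a - ee p b) * c := by ring
      rw [this, norm_mul, hc1, mul_one]
    rw [h3]
    refine lt_of_le_of_lt (norm_sub_le _ _) ?_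
    linarith
  have hcard : Fintype.card (ZMod p) ≤ (B (Vv e x)).card := by
    rw [← Finset.card_univ]
    exact Finset.card_le_card_of_injOn g (fun a _ => hg1 a) (hinj.injOn)
  rw [ZMod.card] at hcard
  exact absurd (hB.card (Vv e x)) (by omega)

end main

section gons

variable {H : Type} [NormedAddCommGroup H] [InnerProductSpace ℂ H]
variable {p : ℕ} [hpf : Fact p.Prime]

open Classical in
/-- the regular polygon -/
noncomputable def gon (p : ℕ) [Fact p.Prime] (v : H) : Finset H :=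
  (Finset.univ : Finset (ZMod p)).image fun j => ee p j • v

theorem mem_gon {v x : H} : x ∈ gon p v ↔ ∃ j : ZMod p, ee p j • v = x := by
  simp [gon]

theorem gon_nonempty (v : H) : (gon p v).Nonempty := ⟨ee p 0 • v, mem_gon.2 ⟨0, rfl⟩⟩

theorem gon_card (v : H) : (gon p v).card ≤ p := by
  classical
  refine Finset.card_image_le.trans ?_
  rw [Finset.card_univ, ZMod.card]

theorem gon_rot (v : H) : gon p (om p • v) = gon p v := by
  ext x
  rw [mem_gon, mem_gon]
  constructor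
  · rintro ⟨j, rfl⟩
    exact ⟨j + 1, by rw [ee_add, ee_one, smul_smul]⟩
  · rintro ⟨j, rfl⟩
    exact ⟨j - 1, by rw [smul_smul, ← ee_one, ← ee_add]; congr 2; ring⟩

theorem gon_dist (v w : H) : hausdorffDist (gon p v : Set H) (gon p w : Set H) ≤ ‖v - w‖ := by
  refine hausdorffDist_le_of_mem_dist (norm_nonneg _) ?_ ?_
  · intro x hx
    obtain ⟨j, rfl⟩ := mem_gon.1 (Finset.mem_coe.1 hx)
    refine ⟨ee p j • w, Finset.mem_coe.2 (mem_gon.2 ⟨j, rfl⟩), ?_⟩
    rw [dist_eq_norm, ← smul_sub, norm_smul, ee_norm, one_mul]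
  · intro x hx
    obtain ⟨j, rfl⟩ := mem_gon.1 (Finset.mem_coe.1 hx)
    refine ⟨ee p j • v, Finset.mem_coe.2 (mem_gon.2 ⟨j, rfl⟩), ?_⟩
    rw [dist_eq_norm, ← smul_sub, norm_smul, ee_norm, one_mul, norm_sub_rev]

omit [InnerProductSpace ℂ H] in
theorem fin_ne_top {s t : Finset H} (hs : s.Nonempty) (ht : t.Nonempty) :
    hausdorffEDist (s : Set H) (t : Set H) ≠ ⊤ :=
  hausdorffEDist_ne_top_of_nonempty_of_bounded hs ht s.finite_toSet.isBounded
    t.finite_toSet.isBounded

/-- a Lipschitz retraction gives a family -/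
theorem exists_family {C : ℝ} (hC : |C| * ‖om p - 1‖ < 1 / 4) {r : Finset H → Finset H}
    (h1 : ∀ s : Finset H, s.Nonempty → s.card ≤ p → (r s).Nonempty ∧ (r s).card ≤ p - 1)
    (h2 : ∀ s : Finset H, s.Nonempty → s.card ≤ p - 1 → r s = s)
    (h3 : ∀ s t : Finset H, s.Nonempty → s.card ≤ p → t.Nonempty → t.card ≤ p →
      hausdorffDist ((r s : Finset H) : Set H) ((r t : Finset H) : Set H)
        ≤ C * hausdorffDist ((s : Finset H) : Set H) ((t : Finset H) : Set H)) :
    Family p |C| (fun v : H => r (gon p v)) := by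
  classical
  have h3' : ∀ s t : Finset H, s.Nonempty → s.card ≤ p → t.Nonempty → t.card ≤ p → ∀ δ,
      hausdorffDist (s : Set H) (t : Set H) ≤ δ →
      hausdorffDist ((r s : Finset H) : Set H) ((r t : Finset H) : Set H) ≤ |C| * δ := by
    intro s t hs hs' ht ht' δ hδ
    refine (h3 s t hs hs' ht ht').trans ?_
    calc C * hausdorffDist (s : Set H) (t : Set H)
        ≤ |C| * hausdorffDist (s : Set H) (t : Set H) :=
          mul_le_mul_of_nonneg_right (le_abs_self C) hausdorffDist_nonneg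
      _ ≤ |C| * δ := mul_le_mul_of_nonneg_left hδ (abs_nonneg C)
  have hr : ∀ v : H, (r (gon p v)).Nonempty ∧ (r (gon p v)).card ≤ p - 1 := fun v =>
    h1 _ (gon_nonempty v) (gon_card v)
  have hp2 := hpf.out.two_le
  refine ⟨fun v => (hr v).1, fun v => ?_, ?_, ?_, fun v => ?_⟩
  · have := (hr v).2
    change (r (gon p v)).card < p
    omega
  · intro v hv b hb
    have hv0 : v ≠ 0 := by
      intro h
      rw [h, norm_zero] at hv
      exact zero_ne_one hv
    have hom : om p ≠ 1 := by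
      intro h
      rw [← ee_one] at h
      exact one_ne_zero (ee_eq_one h)
    have hvm : v ∈ gon p v := mem_gon.2 ⟨0, by rw [ee_zero, one_smul]⟩
    have hwm : om p • v ∈ (gon p v).erase v := by
      rw [Finset.mem_erase]
      refine ⟨?_, mem_gon.2 ⟨1, by rw [ee_one]⟩⟩
      intro h
      apply hom
      have h4 : (om p - 1) • v = 0 := by rw [sub_smul, h, one_smul, sub_self]
      rcases smul_eq_zero.1 h4 with h5 | h5
      · exact sub_eq_zero.1 h5
      · exact absurd h5 hv0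
    have hne : ((gon p v).erase v).Nonempty := ⟨_, hwm⟩
    have hcard : ((gon p v).erase v).card ≤ p - 1 := by
      rw [Finset.card_erase_of_mem hvm]
      have := gon_card (p := p) v
      omega
    have hd : hausdorffDist (gon p v : Set H) ((gon p v).erase v : Set H) ≤ ‖om p - 1‖ := by
      refine hausdorffDist_le_of_mem_dist (norm_nonneg _) ?_ ?_
      · intro x hx
        by_cases hxv : x = v
        · refine ⟨om p • v, Finset.mem_coe.2 hwm, ?_⟩
          have h4 : v - om p • v = -((om p - 1) • v) := by rw [sub_smul, one_smul]; abel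
          rw [hxv, dist_eq_norm, h4, norm_neg, norm_smul, hv, mul_one]
        · exact ⟨x, Finset.mem_coe.2 (Finset.mem_erase.2 ⟨hxv, Finset.mem_coe.1 hx⟩), by
            rw [dist_self]; exact norm_nonneg _⟩
      · intro x hx
        exact ⟨x, Finset.mem_coe.2 (Finset.mem_of_mem_erase (Finset.mem_coe.1 hx)), by
            rw [dist_self]; exact norm_nonneg _⟩
    have h4 := h3' _ _ (gon_nonempty v) (gon_card v) hne (hcard.trans (Nat.sub_le _ _)) _ hd
    rw [h2 _ hne hcard] at h4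
    obtain ⟨y, hy, hby⟩ := exists_dist_lt_of_hausdorffDist_lt (Finset.mem_coe.2 hb)
      (h4.trans_lt hC) (fin_ne_top (hr v).1 hne)
    obtain ⟨j, hj⟩ := mem_gon.1 (Finset.mem_of_mem_erase (Finset.mem_coe.1 hy))
    refine ⟨j, ?_⟩
    rw [hj, ← dist_eq_norm]
    exact hby
  · intro v w b hb ε hε
    have h4 := h3' _ _ (gon_nonempty v) (gon_card v) (gon_nonempty w) (gon_card w) _
      (gon_dist v w)
    obtain ⟨y, hy, hby⟩ := exists_dist_lt_of_hausdorffDist_lt (Finset.mem_coe.2 hb)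
      (h4.trans_lt (lt_add_of_pos_right _ hε)) (fin_ne_top (hr v).1 (hr w).1)
    refine ⟨y, Finset.mem_coe.1 hy, ?_⟩
    rw [← dist_eq_norm]
    exact hby
  · rw [gon_rot]

end gons

theorem om_sub_one_le {p : ℕ} (hp : 0 < p) : ‖om p - 1‖ ≤ 8 / p := by
  have h1 : om p = Complex.exp (Complex.I * ((2 * Real.pi / p : ℝ) : ℂ)) := by
    unfold om; congr 1; push_cast; ring
  rw [h1]
  refine (Real.norm_exp_I_mul_ofReal_sub_one_le).trans ?_
  have hp' : (0 : ℝ) < p := by exact_mod_cast hp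
  rw [Real.norm_eq_abs, abs_of_pos (by positivity)]
  have := Real.pi_le_four
  gcongr
  linarith

/-- In `ℓ²` no constant works for all `n`. -/
theorem no_uniform (C : ℝ) : ∃ n : ℕ, 2 ≤ n ∧ ∀ r : Finset (lp (fun _ : ℕ => ℂ) 2) →
    Finset (lp (fun _ : ℕ => ℂ) 2),
    (∀ s : Finset (lp (fun _ : ℕ => ℂ) 2), s.Nonempty → s.card ≤ n →
      (r s).Nonempty ∧ (r s).card ≤ n - 1) →
    (∀ s : Finset (lp (fun _ : ℕ => ℂ) 2), s.Nonempty → s.card ≤ n - 1 → r s = s) →
    ¬ (∀ s t : Finset (lp (fun _ : ℕ => ℂ) 2), s.Nonempty → s.card ≤ n → t.Nonempty →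
      t.card ≤ n → hausdorffDist (r s : Set (lp (fun _ : ℕ => ℂ) 2)) (r t : Set _)
        ≤ C * hausdorffDist (s : Set (lp (fun _ : ℕ => ℂ) 2)) (t : Set _)) := by
  obtain ⟨N, hN⟩ := exists_nat_gt (32 * |C|)
  obtain ⟨p, hNp, hp⟩ := Nat.exists_infinite_primes (N + 3)
  have : Fact p.Prime := ⟨hp⟩
  refine ⟨p, hp.two_le, fun r h1 h2 h3 => ?_⟩
  have hp0 : (0 : ℝ) < p := by exact_mod_cast hp.pos
  have hC : |C| * ‖om p - 1‖ < 1 / 4 := by
    have h4 := om_sub_one_le hp.pos
    have h5 : (N : ℝ) ≤ p := by exact_mod_cast (by omega : N ≤ p)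
    have h6 : |C| * (8 / p) < 1 / 4 := by
      rw [mul_div_assoc', div_lt_iff₀ hp0]
      linarith
    exact (mul_le_mul_of_nonneg_left h4 (abs_nonneg C)).trans_lt h6
  have hB := exists_family hC h1 h2 h3
  have he := (HilbertBasis.ofRepr (LinearIsometryEquiv.refl ℂ (lp (fun _ : ℕ => ℂ) 2))).orthonormal
  exact no_family (by omega) hB (abs_nonneg C) he.linearIndependent

end Pool.Agent.Q183.FinRetract
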