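import Mathlib

/-!
# A Poincare inequality on the space of square matrices over the field with two elements
-/

open Finset

namespace Q183.RankPoincare

/-- the nontrivial real character of `ZMod 2` -/
noncomputable def sg (a : ZMod 2) : ℝ := if a = 0 then 1 else -1

theorem sg_zero : sg 0 = 1 := by simp [sg]

theorem sg_one : sg 1 = -1 := by simp [sg]

theorem sg_add (a b : ZMod 2) : sg (a + b) = sg a * sg b := by
  have h : ∀ c : ZMod 2, c = 0 ∨ c = 1 := by decide
  have h2 : (1 + 1 : ZMod 2) = 0 := by decide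
  rcases h a with rfl | rfl <;> rcases h b with rfl | rfl <;> simp [sg, h2]

theorem sg_le_one (a : ZMod 2) : sg a ≤ 1 := by
  unfold sg; split_ifs <;> norm_num

variable {ι : Type} [Fintype ι] [DecidableEq ι]

/-- the pairing -/
def dot (b x : ι → ZMod 2) : ZMod 2 := ∑ i, b i * x i

omit [DecidableEq ι] in
theorem dot_add_right (b x y : ι → ZMod 2) : dot b (x + y) = dot b x + dot b y := by
  simp [dot, mul_add, Finset.sum_add_distrib]

omit [DecidableEq ι] in
theorem dot_add_left (b c x : ι → ZMod 2) : dot (b + c) x = dot b x + dot c x := by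
  simp [dot, add_mul, Finset.sum_add_distrib]

omit [DecidableEq ι] in
theorem dot_comm (b x : ι → ZMod 2) : dot b x = dot x b := by
  simp [dot, mul_comm]

theorem sum_sg (x : ι → ZMod 2) :
    ∑ b : ι → ZMod 2, sg (dot b x) = if x = 0 then (Fintype.card (ι → ZMod 2) : ℝ) else 0 := by
  split_ifs with h
  · subst h
    simp [dot, sg]
  · obtain ⟨i, hi⟩ := Function.ne_iff.1 h
    have h1 : ∀ c : ZMod 2, c ≠ 0 → c = 1 := by decide
    have hi1 : x i = 1 := h1 _ hi
    have h2 : dot (Pi.single i 1) x = 1 := by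
      simp [dot, Pi.single_apply, hi1]
    have h3 : ∑ b : ι → ZMod 2, sg (dot b x) = ∑ b : ι → ZMod 2, sg (dot (b + Pi.single i 1) x) :=
      (Fintype.sum_equiv (Equiv.addRight (Pi.single i 1 : ι → ZMod 2)) _ _ fun b => rfl).symm
    have h4 : ∀ b : ι → ZMod 2, sg (dot (b + Pi.single i 1) x) = - sg (dot b x) := by
      intro b
      rw [dot_add_left, h2, sg_add, sg_one]
      ring
    simp only [h4, Finset.sum_neg_distrib] at h3
    linarith

omit [Fintype ι] [DecidableEq ι] in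
theorem add_self (x : ι → ZMod 2) : x + x = 0 := by
  have h : ∀ a : ZMod 2, a + a = 0 := by decide
  ext i
  simp [h]

variable {E : Type*} [NormedAddCommGroup E] [InnerProductSpace ℝ E]

/-- the Fourier transform -/
noncomputable def ft (f : (ι → ZMod 2) → E) (b : ι → ZMod 2) : E := ∑ x, sg (dot b x) • f x

theorem ft_sum (f : (ι → ZMod 2) → E) (s : ι → ZMod 2) :
    ∑ b, sg (dot b s) * ‖ft f b‖ ^ 2 =
      Fintype.card (ι → ZMod 2) * ∑ x, inner ℝ (f x) (f (x + s)) := by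
  have h1 : ∀ b, sg (dot b s) * ‖ft f b‖ ^ 2 =
      ∑ x, ∑ y, sg (dot b (s + x + y)) * inner ℝ (f x) (f y) := by
    intro b
    rw [← real_inner_self_eq_norm_sq]
    unfold ft
    rw [sum_inner, Finset.mul_sum]
    refine Finset.sum_congr rfl fun x _ => ?_
    rw [inner_sum, Finset.mul_sum]
    refine Finset.sum_congr rfl fun y _ => ?_
    rw [real_inner_smul_left, real_inner_smul_right, dot_add_right, dot_add_right, sg_add, sg_add]
    ring
  simp only [h1]
  rw [Finset.sum_comm]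
  rw [Finset.mul_sum]
  refine Finset.sum_congr rfl fun x _ => ?_
  rw [Finset.sum_comm]
  have h2 : ∀ y, ∑ b, sg (dot b (s + x + y)) * inner ℝ (f x) (f y) =
      (if y = x + s then (Fintype.card (ι → ZMod 2) : ℝ) else 0) * inner ℝ (f x) (f y) := by
    intro y
    rw [← Finset.sum_mul, sum_sg]
    have h3 : s + x + y = 0 ↔ y = x + s := by
      constructor
      · intro h
        have : x + s + (s + x + y) = x + s + 0 := by rw [h]
        rw [show x + s + (s + x + y) = (x + x) + (s + s) + y by abel, add_self, add_self] at this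
        simpa using this
      · rintro rfl
        rw [show s + x + (x + s) = (s + s) + (x + x) by abel, add_self, add_self, add_zero]
    by_cases h : y = x + s
    · rw [if_pos h, if_pos (h3.2 h)]
    · rw [if_neg h, if_neg (fun h' => h (h3.1 h'))]
  simp only [h2]
  simp

theorem sum_sub_sq (f : (ι → ZMod 2) → E) (s : ι → ZMod 2) :
    Fintype.card (ι → ZMod 2) * ∑ x, ‖f x - f (x + s)‖ ^ 2 =
      2 * ∑ b, (1 - sg (dot b s)) * ‖ft f b‖ ^ 2 := by
  have h1 : ∀ x, ‖f x - f (x + s)‖ ^ 2 =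
      ‖f x‖ ^ 2 + ‖f (x + s)‖ ^ 2 - 2 * inner ℝ (f x) (f (x + s)) := by
    intro x
    rw [norm_sub_sq_real]; ring
  have h2 : ∑ x, ‖f (x + s)‖ ^ 2 = ∑ x, ‖f x‖ ^ 2 :=
    Fintype.sum_equiv (Equiv.addRight s) _ _ fun b => rfl
  have h3 := ft_sum f s
  have h4 := ft_sum f 0
  have h5 : ∀ b : ι → ZMod 2, sg (dot b 0) = 1 := by
    intro b; simp [dot, sg]
  simp only [h5, one_mul, add_zero, real_inner_self_eq_norm_sq] at h4
  simp only [h1, Finset.sum_sub_distrib, Finset.sum_add_distrib, h2, ← Finset.mul_sum]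
  simp only [sub_mul, one_mul, Finset.sum_sub_distrib, h3, h4]
  ring

/-- the Poincare inequality for a family of generators with a spectral gap -/
theorem poincare {T : Type} [Fintype T] (g : T → ι → ZMod 2)
    (hg : ∀ b : ι → ZMod 2, b ≠ 0 → ∑ t, sg (dot b (g t)) ≤ (Fintype.card T : ℝ) / 2)
    (f : (ι → ZMod 2) → E) :
    (Fintype.card T : ℝ) * ∑ x, ∑ y, ‖f x - f y‖ ^ 2 ≤
      2 * Fintype.card (ι → ZMod 2) * ∑ t, ∑ x, ‖f x - f (x + g t)‖ ^ 2 := by
  obtain ⟨W, hW⟩ : ∃ W : ℝ, W = Fintype.card (ι → ZMod 2) := ⟨_, rfl⟩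
  obtain ⟨τ, hτ⟩ : ∃ τ : ℝ, τ = Fintype.card T := ⟨_, rfl⟩
  have hWpos : 0 < W := by rw [hW]; exact_mod_cast Fintype.card_pos
  have hτ0 : 0 ≤ τ := by rw [hτ]; positivity
  -- all pairs
  have h1 : ∑ x, ∑ y, ‖f x - f y‖ ^ 2 = ∑ s, ∑ x, ‖f x - f (x + s)‖ ^ 2 := by
    rw [Finset.sum_comm (s := (Finset.univ : Finset (ι → ZMod 2)))
      (f := fun s x => ‖f x - f (x + s)‖ ^ 2)]
    refine Finset.sum_congr rfl fun x _ => ?_
    exact (Fintype.sum_equiv (Equiv.addLeft x) _ _ fun b => rfl).symm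
  have h2 : W * ∑ s, ∑ x, ‖f x - f (x + s)‖ ^ 2 =
      2 * (W * ∑ b ∈ univ.filter (· ≠ (0 : ι → ZMod 2)), ‖ft f b‖ ^ 2) := by
    rw [Finset.mul_sum]
    have : ∀ s, W * ∑ x, ‖f x - f (x + s)‖ ^ 2 = 2 * ∑ b, (1 - sg (dot b s)) * ‖ft f b‖ ^ 2 := by
      intro s; rw [hW]; exact sum_sub_sq f s
    simp only [this]
    rw [← Finset.mul_sum, Finset.sum_comm]
    congr 1
    rw [Finset.mul_sum, Finset.sum_filter]
    refine Finset.sum_congr rfl fun b _ => ?_
    rw [← Finset.sum_mul, Finset.sum_sub_distrib]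
    have h3 : ∑ s : ι → ZMod 2, sg (dot b s) = if b = 0 then W else 0 := by
      rw [hW, ← sum_sg b]
      exact Finset.sum_congr rfl fun s _ => by rw [dot_comm]
    rw [h3]
    have h4 : ∑ _s : ι → ZMod 2, (1 : ℝ) = W := by simp [hW]
    rw [h4]
    by_cases hb : b = 0
    · simp [hb]
    · simp [hb]
  have h3 : W * ∑ t, ∑ x, ‖f x - f (x + g t)‖ ^ 2 =
      2 * ∑ b, (τ - ∑ t, sg (dot b (g t))) * ‖ft f b‖ ^ 2 := by
    rw [Finset.mul_sum]
    have : ∀ t, W * ∑ x, ‖f x - f (x + g t)‖ ^ 2 =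
        2 * ∑ b, (1 - sg (dot b (g t))) * ‖ft f b‖ ^ 2 := by
      intro t; rw [hW]; exact sum_sub_sq f (g t)
    simp only [this]
    rw [← Finset.mul_sum, Finset.sum_comm]
    congr 1
    refine Finset.sum_congr rfl fun b _ => ?_
    rw [← Finset.sum_mul, Finset.sum_sub_distrib]
    simp [hτ]
  have h4 : τ / 2 * ∑ b ∈ univ.filter (· ≠ (0 : ι → ZMod 2)), ‖ft f b‖ ^ 2 ≤
      ∑ b, (τ - ∑ t, sg (dot b (g t))) * ‖ft f b‖ ^ 2 := by
    rw [Finset.mul_sum, Finset.sum_filter]
    refine Finset.sum_le_sum fun b _ => ?_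
    split_ifs with hb
    · have := hg b hb
      rw [← hτ] at this
      exact mul_le_mul_of_nonneg_right (by linarith) (by positivity)
    · have : ∑ t, sg (dot b (g t)) ≤ τ := by
        calc ∑ t, sg (dot b (g t)) ≤ ∑ _t : T, (1 : ℝ) := Finset.sum_le_sum fun t _ => sg_le_one _
          _ = τ := by simp [hτ]
      exact mul_nonneg (by linarith) (by positivity)
  rw [← hW, ← hτ, h1]
  have h5 : ∑ s, ∑ x, ‖f x - f (x + s)‖ ^ 2 =
      2 * ∑ b ∈ univ.filter (· ≠ (0 : ι → ZMod 2)), ‖ft f b‖ ^ 2 := by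
    have := h2
    have h6 : W * (∑ s, ∑ x, ‖f x - f (x + s)‖ ^ 2) =
        W * (2 * ∑ b ∈ univ.filter (· ≠ (0 : ι → ZMod 2)), ‖ft f b‖ ^ 2) := by
      rw [this]; ring
    exact mul_left_cancel₀ hWpos.ne' h6
  rw [h5, mul_assoc 2 W, h3]
  linarith

end Q183.RankPoincare
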