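import Mathlib
import Pool.Agent.Q183.RankPoincare

/-!
# The rank metric on square matrices over the field with two elements
-/

open Finset

namespace Q183.RankMetric

open Q183.RankPoincare

variable {D : ℕ}

/-- the matrix of a function on pairs -/
def mat (x : Fin D × Fin D → ZMod 2) : Matrix (Fin D) (Fin D) (ZMod 2) :=
  Matrix.of fun i j => x (i, j)

/-- rank one generators -/
def gen (t : (Fin D → ZMod 2) × (Fin D → ZMod 2)) (p : Fin D × Fin D) : ZMod 2 :=
  t.1 p.1 * t.2 p.2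

theorem dot_gen (b : Fin D × Fin D → ZMod 2) (u v : Fin D → ZMod 2) :
    dot b (gen (u, v)) = dot u ((mat b).mulVec v) := by
  unfold dot gen mat Matrix.mulVec dotProduct
  rw [Fintype.sum_prod_type]
  refine Finset.sum_congr rfl fun i _ => ?_
  rw [Finset.mul_sum]
  refine Finset.sum_congr rfl fun j _ => ?_
  simp only [Matrix.of_apply]
  ring

theorem gap (b : Fin D × Fin D → ZMod 2) (hb : b ≠ 0) :
    ∑ t, sg (dot b (gen t)) ≤
      (Fintype.card ((Fin D → ZMod 2) × (Fin D → ZMod 2)) : ℝ) / 2 := by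
  rw [Fintype.sum_prod_type, Finset.sum_comm]
  obtain ⟨q, hq⟩ : ∃ q : ℝ, q = Fintype.card (Fin D → ZMod 2) := ⟨_, rfl⟩
  have hq0 : 0 ≤ q := by rw [hq]; positivity
  have h1 : ∀ v : Fin D → ZMod 2, ∑ u, sg (dot b (gen (u, v))) =
      if (mat b).mulVec v = 0 then q else 0 := by
    intro v
    rw [hq, ← sum_sg]
    exact Finset.sum_congr rfl fun u _ => by rw [dot_gen]
  simp only [h1]
  rw [← Finset.sum_filter, Finset.sum_const, nsmul_eq_mul, Fintype.card_prod]
  push_cast
  rw [← hq]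
  -- the kernel has at most half of the elements
  obtain ⟨v₀, hv₀⟩ : ∃ v₀, (mat b).mulVec v₀ ≠ 0 := by
    by_contra hcon
    push Not at hcon
    apply hb
    have h2 : mat b = 0 := by
      apply Matrix.toLin'.injective
      ext1 j
      ext i
      simp [hcon]
    ext ⟨i, j⟩
    exact congrFun (congrFun h2 i) j
  have h2 : 2 * #{v | (mat b).mulVec v = 0} ≤ Fintype.card (Fin D → ZMod 2) := by
    have h3 : #{v | (mat b).mulVec v = 0} ≤ #{v | (mat b).mulVec v ≠ 0} := by
      apply Finset.card_le_card_of_injOn (fun v => v + v₀)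
      · intro v hv
        simp only [Finset.coe_filter, Finset.mem_univ, true_and, Set.mem_ofPred_eq] at hv ⊢
        rw [Matrix.mulVec_add, hv, zero_add]
        exact hv₀
      · intro v _ w _ h
        exact add_right_cancel h
    have h4 := Finset.card_filter_add_card_filter_not (s := (Finset.univ : Finset (Fin D → ZMod 2)))
      (fun v => (mat b).mulVec v = 0)
    rw [Finset.card_univ] at h4
    simp only [ne_eq] at h3
    omega
  have h3 : (2 : ℝ) * (#{v | (mat b).mulVec v = 0} : ℝ) ≤ q := by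
    rw [hq]
    exact_mod_cast h2
  nlinarith

theorem sum_ker_le :
    ∑ x : Fin D × Fin D → ZMod 2, (#{v | (mat x).mulVec v = 0} : ℝ) ≤
      2 * Fintype.card (Fin D × Fin D → ZMod 2) := by
  obtain ⟨q, hq⟩ : ∃ q : ℝ, q = Fintype.card (Fin D → ZMod 2) := ⟨_, rfl⟩
  obtain ⟨W, hW⟩ : ∃ W : ℝ, W = Fintype.card (Fin D × Fin D → ZMod 2) := ⟨_, rfl⟩
  have hq0 : 0 < q := by rw [hq]; exact_mod_cast Fintype.card_pos
  have hW0 : 0 ≤ W := by rw [hW]; positivity
  rw [← hW]
  have h1 : q * ∑ x : Fin D × Fin D → ZMod 2, (#{v | (mat x).mulVec v = 0} : ℝ) =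
      ∑ v : Fin D → ZMod 2, ∑ u : Fin D → ZMod 2, ∑ x, sg (dot (gen (u, v)) x) := by
    rw [Finset.mul_sum]
    have : ∀ x : Fin D × Fin D → ZMod 2, q * (#{v | (mat x).mulVec v = 0} : ℝ) =
        ∑ v : Fin D → ZMod 2, ∑ u : Fin D → ZMod 2, sg (dot (gen (u, v)) x) := by
      intro x
      have h2 : ∀ v : Fin D → ZMod 2, ∑ u : Fin D → ZMod 2, sg (dot (gen (u, v)) x) =
          if (mat x).mulVec v = 0 then q else 0 := by
        intro v
        rw [hq, ← sum_sg]
        exact Finset.sum_congr rfl fun u _ => by rw [dot_comm, dot_gen]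
      simp only [h2]
      rw [← Finset.sum_filter, Finset.sum_const, nsmul_eq_mul]
      ring
    simp only [this]
    rw [Finset.sum_comm]
    refine Finset.sum_congr rfl fun v _ => ?_
    rw [Finset.sum_comm]
  have h2 : ∀ u v : Fin D → ZMod 2, ∑ x, sg (dot (gen (u, v)) x) ≤
      (if v = 0 then W else 0) + (if u = 0 then W else 0) := by
    intro u v
    have h3 : ∑ x, sg (dot (gen (u, v)) x) = if gen (u, v) = 0 then W else 0 := by
      rw [hW, ← sum_sg]
      exact Finset.sum_congr rfl fun u _ => by rw [dot_comm]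
    rw [h3]
    by_cases hv : v = 0
    · rw [if_pos hv]
      have : 0 ≤ (if u = 0 then W else 0) := by split_ifs <;> simp [hW0]
      have h5 : (if gen (u, v) = 0 then W else 0) ≤ W := by split_ifs <;> simp [hW0]
      linarith
    · by_cases hu : u = 0
      · rw [if_pos hu]
        have : 0 ≤ (if v = 0 then W else 0) := by split_ifs <;> simp [hW0]
        have h5 : (if gen (u, v) = 0 then W else 0) ≤ W := by split_ifs <;> simp [hW0]
        linarith
      · rw [if_neg hv, if_neg hu, if_neg]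
        · rw [add_zero]
        · intro h
          obtain ⟨i, hi⟩ := Function.ne_iff.1 hu
          obtain ⟨j, hj⟩ := Function.ne_iff.1 hv
          have := congrFun h (i, j)
          simp only [gen, Pi.zero_apply, mul_eq_zero] at this
          rcases this with h | h
          · exact hi h
          · exact hj h
  have h3 : ∑ v : Fin D → ZMod 2, ∑ u : Fin D → ZMod 2, ∑ x, sg (dot (gen (u, v)) x) ≤
      q * (2 * W) := by
    calc _ ≤ ∑ v : Fin D → ZMod 2, ∑ u : Fin D → ZMod 2,
          ((if v = 0 then W else 0) + (if u = 0 then W else 0)) :=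
        Finset.sum_le_sum fun v _ => Finset.sum_le_sum fun u _ => h2 u v
      _ = q * (2 * W) := by
        simp only [Finset.sum_add_distrib, Finset.sum_ite_eq', Finset.mem_univ, if_true,
          Finset.sum_const, Finset.card_univ, nsmul_eq_mul, ← Finset.mul_sum]
        rw [← hq]; ring
  rw [← h1] at h3
  exact le_of_mul_le_mul_left h3 hq0

theorem card_ker (A : Matrix (Fin D) (Fin D) (ZMod 2)) :
    #{v | A.mulVec v = 0} = 2 ^ (D - A.rank) := by
  have h1 : Nat.card (LinearMap.ker A.mulVecLin) = 2 ^ (D - A.rank) := by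
    have : Fact (Nat.Prime 2) := ⟨Nat.prime_two⟩
    have h2 := LinearMap.finrank_range_add_finrank_ker A.mulVecLin
    have h3 : Module.finrank (ZMod 2) (LinearMap.range A.mulVecLin) = A.rank := rfl
    rw [h3, Module.finrank_fin_fun] at h2
    have h4 := Module.natCard_eq_pow_finrank (K := ZMod 2) (V := LinearMap.ker A.mulVecLin)
    rw [h4, Nat.card_eq_fintype_card, ZMod.card]
    congr 1
    omega
  rw [← h1, ← Fintype.card_subtype, ← Nat.card_eq_fintype_card]
  apply Nat.card_congr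
  exact Equiv.subtypeEquivRight (by intro v; simp)

/-- most matrices have almost full rank -/
theorem count_rank (hD : 2 ≤ D) :
    (#{x : Fin D × Fin D → ZMod 2 | (mat x).rank ≤ D - 2} : ℝ) ≤
      (Fintype.card (Fin D × Fin D → ZMod 2) : ℝ) / 2 := by
  have h1 := sum_ker_le (D := D)
  have h2 : 4 * (#{x : Fin D × Fin D → ZMod 2 | (mat x).rank ≤ D - 2} : ℝ) ≤
      ∑ x : Fin D × Fin D → ZMod 2, (#{v | (mat x).mulVec v = 0} : ℝ) := by
    calc 4 * (#{x : Fin D × Fin D → ZMod 2 | (mat x).rank ≤ D - 2} : ℝ)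
        = ∑ x ∈ ({x : Fin D × Fin D → ZMod 2 | (mat x).rank ≤ D - 2} : Finset _), (4 : ℝ) := by
          rw [Finset.sum_const, nsmul_eq_mul]; ring
      _ ≤ ∑ x ∈ ({x : Fin D × Fin D → ZMod 2 | (mat x).rank ≤ D - 2} : Finset _),
          (#{v | (mat x).mulVec v = 0} : ℝ) := by
          refine Finset.sum_le_sum fun x hx => ?_
          rw [Finset.mem_filter] at hx
          rw [card_ker]
          have h3 : 2 ^ 2 ≤ 2 ^ (D - (mat x).rank) :=
            Nat.pow_le_pow_right (by norm_num) (by omega)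
          exact_mod_cast h3
      _ ≤ _ := Finset.sum_le_sum_of_subset_of_nonneg (Finset.filter_subset _ _)
          fun _ _ _ => by positivity
  linarith

theorem rank_gen (t : (Fin D → ZMod 2) × (Fin D → ZMod 2)) : (mat (gen t)).rank ≤ 1 := by
  have h1 : mat (gen t) = Matrix.vecMulVec t.1 t.2 := by
    ext i j
    simp [mat, gen, Matrix.vecMulVec]
  rw [h1]
  have : Fact (Nat.Prime 2) := ⟨Nat.prime_two⟩
  exact Matrix.rank_vecMulVec_le _ _

/-- Snowflakes of the rank metric do not embed well: if `c δ^α ≤ |f x - f y|` for `x ≠ y`, where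
`δ ≥ rank (x - y)`, and `|f x - f (x + g)| ≤ C` for rank one `g`, then `c (D-1)^α ≤ 2 C`. -/
theorem distortion {E : Type*} [NormedAddCommGroup E] [InnerProductSpace ℝ E] (hD : 2 ≤ D)
    (f : (Fin D × Fin D → ZMod 2) → E) {c C α : ℝ} (hc : 0 < c) (hα : 0 < α)
    (hlow : ∀ x y, c * ((mat (x - y)).rank : ℝ) ^ α ≤ ‖f x - f y‖)
    (hup : ∀ x t, ‖f x - f (x + gen t)‖ ≤ C) : c * ((D : ℝ) - 1) ^ α ≤ 2 * C := by
  obtain ⟨W, hW⟩ : ∃ W : ℝ, W = Fintype.card (Fin D × Fin D → ZMod 2) := ⟨_, rfl⟩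
  obtain ⟨τ, hτ⟩ : ∃ τ : ℝ, τ = Fintype.card ((Fin D → ZMod 2) × (Fin D → ZMod 2)) := ⟨_, rfl⟩
  have hWpos : 0 < W := by rw [hW]; exact_mod_cast Fintype.card_pos
  have hτpos : 0 < τ := by rw [hτ]; exact_mod_cast Fintype.card_pos
  have hC : 0 ≤ C := (norm_nonneg _).trans (hup 0 (0, 0))
  have hD1 : (0 : ℝ) ≤ (D : ℝ) - 1 := by
    have : (2 : ℝ) ≤ D := by exact_mod_cast hD
    linarith
  have h1 := poincare gen gap f
  rw [← hW, ← hτ] at h1
  have h2 : ∑ t : (Fin D → ZMod 2) × (Fin D → ZMod 2), ∑ x, ‖f x - f (x + gen t)‖ ^ 2 ≤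
      τ * (W * C ^ 2) := by
    calc _ ≤ ∑ _t : (Fin D → ZMod 2) × (Fin D → ZMod 2),
          ∑ _x : Fin D × Fin D → ZMod 2, C ^ 2 :=
        Finset.sum_le_sum fun t _ => Finset.sum_le_sum fun x _ => by
          have := hup x t
          gcongr
      _ = τ * (W * C ^ 2) := by simp [hτ, hW]
  have h3 : W * (W / 2 * (c * ((D : ℝ) - 1) ^ α) ^ 2) ≤ ∑ x, ∑ y, ‖f x - f y‖ ^ 2 := by
    have h4 : ∀ y, W / 2 * (c * ((D : ℝ) - 1) ^ α) ^ 2 ≤ ∑ x, ‖f x - f y‖ ^ 2 := by
      intro y
      have h5 : ∑ x, ‖f x - f y‖ ^ 2 = ∑ z, ‖f (z + y) - f y‖ ^ 2 :=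
        (Fintype.sum_equiv (Equiv.addRight y) _ _ fun b => rfl).symm
      rw [h5]
      have h6 := count_rank hD
      rw [← hW] at h6
      have h7 := Finset.card_filter_add_card_filter_not
        (s := (Finset.univ : Finset (Fin D × Fin D → ZMod 2))) (fun x => (mat x).rank ≤ D - 2)
      rw [Finset.card_univ] at h7
      have h8 : (#{x : Fin D × Fin D → ZMod 2 | (mat x).rank ≤ D - 2} : ℝ) +
          (#{x : Fin D × Fin D → ZMod 2 | ¬ (mat x).rank ≤ D - 2} : ℝ) = W := by
        rw [hW]; exact_mod_cast h7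
      calc W / 2 * (c * ((D : ℝ) - 1) ^ α) ^ 2
          ≤ (#{x : Fin D × Fin D → ZMod 2 | ¬ (mat x).rank ≤ D - 2} : ℝ) *
            (c * ((D : ℝ) - 1) ^ α) ^ 2 := by
            apply mul_le_mul_of_nonneg_right _ (by positivity)
            linarith
        _ = ∑ x ∈ ({x : Fin D × Fin D → ZMod 2 | ¬ (mat x).rank ≤ D - 2} : Finset _),
            (c * ((D : ℝ) - 1) ^ α) ^ 2 := by
            rw [Finset.sum_const, nsmul_eq_mul]
        _ ≤ ∑ z ∈ ({x : Fin D × Fin D → ZMod 2 | ¬ (mat x).rank ≤ D - 2} : Finset _),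
            ‖f (z + y) - f y‖ ^ 2 := by
            refine Finset.sum_le_sum fun z hz => ?_
            rw [Finset.mem_filter] at hz
            have h9 := hlow (z + y) y
            rw [add_sub_cancel_right] at h9
            have h10 : ((D : ℝ) - 1) ≤ ((mat z).rank : ℝ) := by
              have : D ≤ (mat z).rank + 1 := by omega
              have : (D : ℝ) ≤ (mat z).rank + 1 := by exact_mod_cast this
              linarith
            have h11 : c * ((D : ℝ) - 1) ^ α ≤ ‖f (z + y) - f y‖ :=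
              (mul_le_mul_of_nonneg_left (Real.rpow_le_rpow hD1 h10 hα.le) hc.le).trans h9
            have h12 : 0 ≤ c * ((D : ℝ) - 1) ^ α :=
              mul_nonneg hc.le (Real.rpow_nonneg hD1 _)
            gcongr
        _ ≤ _ := Finset.sum_le_sum_of_subset_of_nonneg (Finset.filter_subset _ _)
            fun _ _ _ => by positivity
    rw [Finset.sum_comm]
    calc W * (W / 2 * (c * ((D : ℝ) - 1) ^ α) ^ 2)
        = ∑ _y : Fin D × Fin D → ZMod 2, (W / 2 * (c * ((D : ℝ) - 1) ^ α) ^ 2) := by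
          rw [Finset.sum_const, nsmul_eq_mul, Finset.card_univ, hW]
      _ ≤ _ := Finset.sum_le_sum fun y _ => h4 y
  have h4 : τ * (W * (W / 2 * (c * ((D : ℝ) - 1) ^ α) ^ 2)) ≤ 2 * W * (τ * (W * C ^ 2)) :=
    (mul_le_mul_of_nonneg_left h3 hτpos.le).trans
      (h1.trans (mul_le_mul_of_nonneg_left h2 (by positivity)))
  have h5 : (c * ((D : ℝ) - 1) ^ α) ^ 2 ≤ (2 * C) ^ 2 := by
    have h6 : 0 < τ * W * W := by positivity
    have h7 : (τ * W * W) * (c * ((D : ℝ) - 1) ^ α) ^ 2 ≤ (τ * W * W) * (2 * C) ^ 2 := by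
      nlinarith
    exact le_of_mul_le_mul_left h7 h6
  exact (sq_le_sq₀ (mul_nonneg hc.le (Real.rpow_nonneg hD1 _)) (by positivity)).1 h5

end Q183.RankMetric
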