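import Mathlib
import Pool.Agent.Q183.RankMetric

/-!
# A countable compact metric fractal containing scaled copies of all rank metrics
-/

open Set

namespace Q183.FractalSpace

open Q183.RankPoincare Q183.RankMetric

theorem rank_add_le {D : ℕ} (A B : Matrix (Fin D) (Fin D) (ZMod 2)) :
    (A + B).rank ≤ A.rank + B.rank := by
  have : Fact (Nat.Prime 2) := ⟨Nat.prime_two⟩
  unfold Matrix.rank
  refine le_trans (Submodule.finrank_mono ?_)
    (Submodule.finrank_add_le_finrank_add_finrank _ _)
  rw [Matrix.mulVecLin_add]
  exact LinearMap.range_add_le _ _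

/-- the square part of a sequence -/
def sq (D : ℕ) (x : ℕ → ZMod 2) (p : Fin D × Fin D) : ZMod 2 := x (p.1 * D + p.2)

open Classical in
/-- the distance inside a level -/
noncomputable def dl (D : ℕ) (x y : ℕ → ZMod 2) : ℝ :=
  if x = y then 0 else max 1 ((mat (sq D (x - y))).rank : ℝ)

theorem dl_self (D : ℕ) (x : ℕ → ZMod 2) : dl D x x = 0 := by simp [dl]

theorem one_le_dl {D : ℕ} {x y : ℕ → ZMod 2} (h : x ≠ y) : 1 ≤ dl D x y := by
  unfold dl; rw [if_neg h]; exact le_max_left _ _

theorem rank_le_dl (D : ℕ) (x y : ℕ → ZMod 2) : ((mat (sq D (x - y))).rank : ℝ) ≤ dl D x y := by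
  unfold dl
  split_ifs with h
  · subst h
    have : mat (sq D (x - x)) = 0 := by
      ext i j; simp [mat, sq]
    rw [this]; simp
  · exact le_max_right _ _

theorem dl_nonneg (D : ℕ) (x y : ℕ → ZMod 2) : 0 ≤ dl D x y := by
  unfold dl; split_ifs
  · exact le_rfl
  · positivity

theorem dl_le (D : ℕ) (x y : ℕ → ZMod 2) : dl D x y ≤ D + 1 := by
  have : Fact (Nat.Prime 2) := ⟨Nat.prime_two⟩
  unfold dl; split_ifs
  · positivity
  · apply max_le
    · have : (0 : ℝ) ≤ D := by positivity
      linarith
    · have h1 := Matrix.rank_le_width (mat (sq D (x - y)))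
      have : ((mat (sq D (x - y))).rank : ℝ) ≤ D := by exact_mod_cast h1
      linarith

theorem sub_comm_two (x y : ℕ → ZMod 2) : x - y = y - x := by
  have h : ∀ a b : ZMod 2, a - b = b - a := by decide
  ext i; exact h _ _

theorem dl_comm (D : ℕ) (x y : ℕ → ZMod 2) : dl D x y = dl D y x := by
  unfold dl
  rw [sub_comm_two x y]
  by_cases h : x = y
  · rw [if_pos h, if_pos h.symm]
  · rw [if_neg h, if_neg (Ne.symm h)]

theorem dl_triangle (D : ℕ) (x y z : ℕ → ZMod 2) : dl D x z ≤ dl D x y + dl D y z := by
  by_cases hxy : x = y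
  · subst hxy; rw [dl_self]; linarith
  by_cases hyz : y = z
  · subst hyz; rw [dl_self]; linarith
  by_cases hxz : x = z
  · subst hxz
    rw [dl_self]
    have := dl_nonneg D x y
    have := dl_nonneg D y x
    linarith
  have h1 := one_le_dl (D := D) hxy
  have h2 := one_le_dl (D := D) hyz
  have h3 := rank_le_dl D x y
  have h4 := rank_le_dl D y z
  have h5 : (mat (sq D (x - z))).rank ≤ (mat (sq D (x - y))).rank + (mat (sq D (y - z))).rank := by
    have : mat (sq D (x - z)) = mat (sq D (x - y)) + mat (sq D (y - z)) := by
      ext i j; simp [mat, sq]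
    rw [this]
    exact rank_add_le _ _
  have h6 : ((mat (sq D (x - z))).rank : ℝ) ≤
      (mat (sq D (x - y))).rank + (mat (sq D (y - z))).rank := by exact_mod_cast h5
  unfold dl
  rw [if_neg hxz, if_neg hxy, if_neg hyz]
  unfold dl at h1 h2 h3 h4
  rw [if_neg hxy] at h1 h3
  rw [if_neg hyz] at h2 h4
  apply max_le
  · linarith
  · linarith

/-- a point of level `n`: a binary word of length `n` -/
@[ext] structure Pt where
  /-- the length -/
  n : ℕ
  /-- the letters -/
  x : ℕ → ZMod 2
  /-- there are `n` letters -/
  supp : ∀ i, n ≤ i → x i = 0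

/-- the space: the points of all levels and a limit point -/
inductive K where
  /-- the limit point -/
  | lim : K
  /-- a point of some level -/
  | pt : Pt → K

/-- scale factors -/
noncomputable def r (n : ℕ) : ℝ := 1 / (2 ^ n * (n + 1).factorial)

theorem r_pos (n : ℕ) : 0 < r n := by unfold r; positivity

theorem r_succ (n : ℕ) : r (n + 1) * (n + 2) = r n / 2 := by
  unfold r
  rw [Nat.factorial_succ (n + 1)]
  push_cast
  field_simp
  ring

theorem r_le (n : ℕ) : r n * (n + 1) ≤ (1 / 2) ^ n := by
  unfold r
  rw [Nat.factorial_succ n]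
  push_cast
  have h : (1 : ℝ) ≤ n.factorial := by exact_mod_cast Nat.factorial_pos n
  have h1 : 1 / (2 ^ n * (((n : ℝ) + 1) * (n.factorial : ℝ))) * (n + 1) =
      (1 / 2) ^ n * (1 / (n.factorial : ℝ)) := by
    rw [one_div_pow]
    field_simp
  rw [h1]
  have h2 : 1 / (n.factorial : ℝ) ≤ 1 := by
    rw [div_le_one (by linarith)]; exact h
  calc (1 / 2 : ℝ) ^ n * (1 / (n.factorial : ℝ)) ≤ (1 / 2) ^ n * 1 := by gcongr
    _ = (1 / 2) ^ n := mul_one _

/-- the level -/
def lev : K → Option ℕ
  | .lim => none
  | .pt p => some p.n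

/-- the size of a level -/
noncomputable def sz : Option ℕ → ℝ
  | none => 0
  | some n => (1 / 2) ^ n

theorem sz_nonneg (l : Option ℕ) : 0 ≤ sz l := by
  cases l with
  | none => exact le_rfl
  | some n => simp only [sz]; positivity

/-- the distance within a level -/
noncomputable def del : K → K → ℝ
  | .pt p, .pt q => r p.n * dl (Nat.sqrt p.n) p.x q.x
  | _, _ => 0

theorem del_self (a : K) : del a a = 0 := by
  cases a with
  | lim => rfl
  | pt p => simp [del, dl_self]

theorem del_nonneg (a b : K) : 0 ≤ del a b := by
  cases a with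
  | lim => exact le_rfl
  | pt p =>
    cases b with
    | lim => exact le_rfl
    | pt q => exact mul_nonneg (r_pos _).le (dl_nonneg _ _ _)

theorem del_comm {a b : K} (h : lev a = lev b) : del a b = del b a := by
  cases a with
  | lim =>
    cases b with
    | lim => rfl
    | pt q => rfl
  | pt p =>
    cases b with
    | lim => rfl
    | pt q =>
      have h1 : p.n = q.n := by simpa [lev] using h
      simp only [del]
      rw [h1, dl_comm]

theorem del_le (a b : K) : del a b ≤ sz (lev a) := by
  cases a with
  | lim =>
    cases b with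
    | lim => exact le_rfl
    | pt q => exact le_rfl
  | pt p =>
    cases b with
    | lim => exact sz_nonneg _
    | pt q =>
      simp only [del, lev, sz]
      refine le_trans (mul_le_mul_of_nonneg_left ?_ (r_pos _).le) (r_le p.n)
      refine (dl_le _ _ _).trans ?_
      have : (Nat.sqrt p.n : ℝ) ≤ p.n := by exact_mod_cast Nat.sqrt_le_self _
      linarith

theorem del_triangle {a b c : K} (h : lev a = lev b) (h' : lev b = lev c) :
    del a c ≤ del a b + del b c := by
  cases a with
  | lim =>
    have h1 := del_nonneg .lim b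
    have h2 := del_nonneg b c
    have : del .lim c = 0 := by cases c <;> rfl
    rw [this]; linarith
  | pt p =>
    cases b with
    | lim => simp [lev] at h
    | pt q =>
      cases c with
      | lim => simp [lev] at h'
      | pt s =>
        have h1 : p.n = q.n := by simpa [lev] using h
        simp only [del]
        rw [← h1, ← mul_add]
        exact mul_le_mul_of_nonneg_left (dl_triangle _ _ _ _) (r_pos _).le

theorem eq_of_del {a b : K} (h : lev a = lev b) (h' : del a b = 0) : a = b := by
  cases a with
  | lim =>
    cases b with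
    | lim => rfl
    | pt q => simp [lev] at h
  | pt p =>
    cases b with
    | lim => simp [lev] at h
    | pt q =>
      have h1 : p.n = q.n := by simpa [lev] using h
      simp only [del] at h'
      have h2 : dl (Nat.sqrt p.n) p.x q.x = 0 := by
        rcases mul_eq_zero.1 h' with h3 | h3
        · exact absurd h3 (r_pos _).ne'
        · exact h3
      have h3 : p.x = q.x := by
        by_contra hne
        have := one_le_dl (D := Nat.sqrt p.n) hne
        linarith
      have h4 : p = q := Pt.ext h1 h3
      rw [h4]

open Classical in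
/-- the distance -/
noncomputable def dK (a b : K) : ℝ := if lev a = lev b then del a b else max (sz (lev a)) (sz (lev b))

theorem dK_nonneg (a b : K) : 0 ≤ dK a b := by
  unfold dK; split_ifs
  · exact del_nonneg _ _
  · exact (sz_nonneg _).trans (le_max_left _ _)

theorem dK_self (a : K) : dK a a = 0 := by
  unfold dK; rw [if_pos rfl, del_self]

theorem dK_comm (a b : K) : dK a b = dK b a := by
  unfold dK
  by_cases h : lev a = lev b
  · rw [if_pos h, if_pos h.symm, del_comm h]
  · rw [if_neg h, if_neg (Ne.symm h), max_comm]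

theorem dK_triangle (a b c : K) : dK a c ≤ dK a b + dK b c := by
  have ha := sz_nonneg (lev a)
  have hb := sz_nonneg (lev b)
  have hc := sz_nonneg (lev c)
  by_cases h1 : lev a = lev b
  · by_cases h2 : lev b = lev c
    · unfold dK
      rw [if_pos h1, if_pos h2, if_pos (h1.trans h2)]
      exact del_triangle h1 h2
    · have h3 : ¬ lev a = lev c := fun h => h2 (h1.symm.trans h)
      have h4 := dK_nonneg a b
      have h5 : dK a c = dK b c := by
        unfold dK
        rw [if_neg h2, if_neg h3, h1]
      linarith
  · by_cases h2 : lev b = lev c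
    · have h3 : ¬ lev a = lev c := fun h => h1 (h.trans h2.symm)
      have h4 := dK_nonneg b c
      have h5 : dK a c = dK a b := by
        unfold dK
        rw [if_neg h1, if_neg h3, h2]
      linarith
    · have e1 : dK a b = max (sz (lev a)) (sz (lev b)) := by unfold dK; rw [if_neg h1]
      have e2 : dK b c = max (sz (lev b)) (sz (lev c)) := by unfold dK; rw [if_neg h2]
      rw [e1, e2]
      have e3 : dK a c ≤ max (sz (lev a)) (sz (lev c)) := by
        unfold dK; split_ifs
        · exact (del_le _ _).trans (le_max_left _ _)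
        · exact le_rfl
      have h5 := le_max_left (sz (lev a)) (sz (lev b))
      have h6 := le_max_right (sz (lev b)) (sz (lev c))
      have h7 := le_max_left (sz (lev b)) (sz (lev c))
      have h8 := le_max_right (sz (lev a)) (sz (lev b))
      refine e3.trans (max_le ?_ ?_) <;> linarith

theorem eq_of_dK {a b : K} (h : dK a b = 0) : a = b := by
  unfold dK at h
  split_ifs at h with h1
  · exact eq_of_del h1 h
  · exfalso
    have h2 : sz (lev a) = 0 := le_antisymm ((le_max_left _ _).trans_eq h) (sz_nonneg _)
    have h3 : sz (lev b) = 0 := le_antisymm ((le_max_right _ _).trans_eq h) (sz_nonneg _)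
    have h4 : ∀ l : Option ℕ, sz l = 0 → l = none := by
      intro l hl
      cases l with
      | none => rfl
      | some n =>
        simp only [sz] at hl
        exact absurd hl (by positivity)
    exact h1 ((h4 _ h2).trans (h4 _ h3).symm)

noncomputable instance : MetricSpace K where
  dist := dK
  dist_self := dK_self
  dist_comm := dK_comm
  dist_triangle := dK_triangle
  eq_of_dist_eq_zero := eq_of_dK

theorem dist_def (a b : K) : dist a b = dK a b := rfl

/-- the limit point -/
def o : K := .lim

theorem dist_o (p : Pt) : dist (K.pt p) o = (1 / 2) ^ p.n := by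
  rw [dist_def]
  unfold dK
  rw [if_neg (by simp [lev, o])]
  simp only [lev, sz, o]
  exact max_eq_left (by positivity)

theorem finite_level (N : ℕ) : {a : K | ∃ p : Pt, a = K.pt p ∧ p.n ≤ N}.Finite := by
  have h1 : {p : Pt | p.n ≤ N}.Finite := by
    have h2 : Function.Injective fun p : {p : Pt // p.n ≤ N} =>
        ((⟨p.1.n, Nat.lt_succ_of_le p.2⟩ : Fin (N + 1)), fun i : Fin N => p.1.x i) := by
      rintro ⟨p, hp⟩ ⟨q, hq⟩ h
      simp only [Prod.mk.injEq, Fin.mk.injEq] at h
      obtain ⟨h3, h4⟩ := h
      apply Subtype.ext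
      refine Pt.ext h3 ?_
      ext i
      by_cases hi : i < N
      · exact congrFun h4 ⟨i, hi⟩
      · have h5 : p.n ≤ i := by omega
        have h6 : q.n ≤ i := by omega
        rw [p.supp i h5, q.supp i h6]
    exact Finite.of_injective _ h2
  refine (h1.image (fun p => (K.pt p))).subset ?_
  rintro a ⟨p, rfl, hp⟩
  exact ⟨p, hp, rfl⟩

theorem finite_far {ε : ℝ} (hε : 0 < ε) : {a : K | ε ≤ dist a o}.Finite := by
  obtain ⟨N, hN⟩ := exists_pow_lt_of_lt_one hε (show (1 / 2 : ℝ) < 1 by norm_num)
  refine (finite_level N).subset ?_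
  intro a ha
  cases a with
  | lim =>
    exfalso
    have : dist K.lim o = 0 := dist_self o
    simp only [Set.mem_ofPred_eq] at ha
    rw [this] at ha
    linarith
  | pt p =>
    refine ⟨p, rfl, ?_⟩
    simp only [Set.mem_ofPred_eq] at ha
    rw [dist_o] at ha
    by_contra hlt
    push Not at hlt
    have : (1 / 2 : ℝ) ^ p.n ≤ (1 / 2) ^ N := pow_le_pow_of_le_one (by norm_num) (by norm_num) hlt.le
    linarith

instance : CompactSpace K := by
  refine ⟨isCompact_iff_ultrafilter_le_nhds.2 fun F _ => ?_⟩
  by_cases h : ∀ ε > 0, {a : K | dist a o < ε} ∈ F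
  · refine ⟨o, trivial, ?_⟩
    rw [Metric.nhds_basis_ball.ge_iff]
    intro ε hε
    exact h ε hε
  · push Not at h
    obtain ⟨ε, hε, h1⟩ := h
    rw [← Ultrafilter.compl_mem_iff_notMem] at h1
    have h2 : {a : K | dist a o < ε}ᶜ = {a : K | ε ≤ dist a o} := by
      ext a; simp
    rw [h2] at h1
    obtain ⟨a, _, ha⟩ := Ultrafilter.eq_pure_of_finite_mem (finite_far hε) h1
    refine ⟨a, trivial, ?_⟩
    rw [ha]
    exact pure_le_nhds a

/-- the constant map -/
def f0 (_ : K) : K := .pt ⟨0, 0, fun _ _ => rfl⟩

/-- add a letter to a point -/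
def ext (b : ZMod 2) (p : Pt) : Pt where
  n := p.n + 1
  x := Function.update p.x p.n b
  supp := by
    intro i hi
    rw [Function.update_of_ne (by omega)]
    exact p.supp i (by omega)

/-- the maps appending the letter `b` -/
def f1 (b : ZMod 2) : K → K
  | .lim => .lim
  | .pt p => .pt (ext b p)

theorem f1_contr (b : ZMod 2) (a c : K) : dist (f1 b a) (f1 b c) ≤ 1 / 2 * dist a c := by
  rw [dist_def, dist_def]
  have hlev : ∀ a : K, lev (f1 b a) = (lev a).map (· + 1) := by
    intro a
    cases a <;> rfl
  have hsz : ∀ l : Option ℕ, sz (l.map (· + 1)) = 1 / 2 * sz l := by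
    intro l
    cases l with
    | none => simp [sz]
    | some n =>
      simp only [Option.map_some, sz]
      rw [pow_succ]; ring
  by_cases h : lev a = lev c
  · have h' : lev (f1 b a) = lev (f1 b c) := by rw [hlev, hlev, h]
    unfold dK
    rw [if_pos h, if_pos h']
    cases a with
    | lim =>
      have : del (f1 b .lim) (f1 b c) = 0 := by cases c <;> rfl
      rw [this]
      have := del_nonneg .lim c
      linarith
    | pt p =>
      cases c with
      | lim => simp [lev] at h
      | pt q =>
        have hn : p.n = q.n := by simpa [lev] using h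
        change r (p.n + 1) * dl (Nat.sqrt (p.n + 1)) (Function.update p.x p.n b)
          (Function.update q.x q.n b) ≤ 1 / 2 * (r p.n * dl (Nat.sqrt p.n) p.x q.x)
        by_cases hx : p.x = q.x
        · rw [hx, hn, dl_self, dl_self]; simp
        · have h1 := one_le_dl (D := Nat.sqrt p.n) hx
          have h2 := dl_le (Nat.sqrt (p.n + 1)) (Function.update p.x p.n b)
            (Function.update q.x q.n b)
          have h3 : (Nat.sqrt (p.n + 1) : ℝ) ≤ p.n + 1 := by
            exact_mod_cast Nat.sqrt_le_self _
          have h4 := r_succ p.n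
          have h5 := r_pos p.n
          have h6 := r_pos (p.n + 1)
          calc r (p.n + 1) * dl (Nat.sqrt (p.n + 1)) (Function.update p.x p.n b)
                (Function.update q.x q.n b)
              ≤ r (p.n + 1) * (p.n + 2) := by
                apply mul_le_mul_of_nonneg_left _ h6.le
                linarith
            _ = 1 / 2 * (r p.n * 1) := by rw [h4]; ring
            _ ≤ _ := by gcongr
  · have h' : ¬ lev (f1 b a) = lev (f1 b c) := by
      rw [hlev, hlev]
      intro h2
      apply h
      exact Option.map_injective (fun m n hmn => by simpa using hmn) h2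
    unfold dK
    rw [if_neg h, if_neg h', hlev, hlev, hsz, hsz, mul_max_of_nonneg _ _ (by norm_num)]

theorem cover (a : K) : a = f0 a ∨ a ∈ range (f1 0) ∨ a ∈ range (f1 1) := by
  have h2 : ∀ b : ZMod 2, b = 0 ∨ b = 1 := by decide
  cases a with
  | lim => exact Or.inr (Or.inl ⟨.lim, rfl⟩)
  | pt p =>
    rcases Nat.eq_zero_or_pos p.n with h | h
    · left
      unfold f0
      congr 1
      refine Pt.ext h ?_
      ext i
      rw [p.supp i (by omega)]
      rfl
    · right
      obtain ⟨m, hm⟩ : ∃ m, p.n = m + 1 := ⟨p.n - 1, by omega⟩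
      have key : ∀ b, p.x m = b → (K.pt p) ∈ range (f1 b) := by
        intro b hb
        refine ⟨.pt ⟨m, Function.update p.x m 0, ?_⟩, ?_⟩
        · intro i hi
          by_cases him : i = m
          · rw [him, Function.update_self]
          · rw [Function.update_of_ne him]
            exact p.supp i (by omega)
        · unfold f1
          apply congrArg K.pt
          refine Pt.ext hm.symm ?_
          simp only [ext, Function.update_idem]
          rw [← hb, Function.update_eq_self]
      rcases h2 (p.x m) with h3 | h3
      · exact Or.inl (key 0 h3)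
      · exact Or.inr (key 1 h3)

/-- the copy of the space of matrices -/
def emb (D : ℕ) (a : Fin D × Fin D → ZMod 2) : K :=
  .pt ⟨D * D, fun k => if h : k < D * D then
    a (⟨k / D, Nat.div_lt_of_lt_mul h⟩, ⟨k % D, Nat.mod_lt _ (Nat.pos_of_ne_zero (by
      rintro rfl; simp at h))⟩) else 0, fun i hi => dif_neg (by omega)⟩

theorem dist_emb (D : ℕ) (a b : Fin D × Fin D → ZMod 2) :
    dist (emb D a) (emb D b) = r (D * D) * (if a = b then 0 else
      max 1 ((mat (a - b)).rank : ℝ)) := by
  rw [dist_def]
  have hlev : lev (emb D a) = lev (emb D b) := rfl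
  unfold dK
  rw [if_pos hlev]
  simp only [emb, del, Nat.sqrt_eq]
  congr 1
  have hsq : ∀ a : Fin D × Fin D → ZMod 2, sq D (fun k => if h : k < D * D then
    a (⟨k / D, Nat.div_lt_of_lt_mul h⟩, ⟨k % D, Nat.mod_lt _ (Nat.pos_of_ne_zero (by
      rintro rfl; simp at h))⟩) else 0) = a := by
    intro a
    ext ⟨i, j⟩
    have hlt : (i : ℕ) * D + j < D * D := by
      have h1 := i.2
      have h2 := j.2
      calc (i : ℕ) * D + j < i * D + D := by omega
        _ = (i + 1) * D := by ring
        _ ≤ D * D := Nat.mul_le_mul_right _ h1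
    have hpos : 0 < D := by have := i.2; omega
    simp only [sq]
    rw [dif_pos hlt]
    congr 1
    ext
    · simp only
      rw [Nat.mul_comm, Nat.mul_add_div hpos, Nat.div_eq_of_lt j.2, add_zero]
    · simp only
      rw [Nat.mul_comm, Nat.mul_add_mod, Nat.mod_eq_of_lt j.2]
  have hsub : ∀ x y : ℕ → ZMod 2, sq D (x - y) = sq D x - sq D y := by
    intro x y; ext p; simp [sq]
  unfold dl
  rw [hsub, hsq, hsq]
  by_cases h : a = b
  · subst h; simp
  · rw [if_neg h, if_neg]
    intro h2
    apply h
    rw [← hsq a, ← hsq b, h2]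

/-- The space does not admit any map into an inner product space which distorts distances like a
power. -/
theorem no_holder {E : Type*} [NormedAddCommGroup E] [InnerProductSpace ℝ E] (h : K → E)
    {c C α : ℝ} (hc : 0 < c) (hα : 0 < α) (h1 : ∀ x y, c * dist x y ^ α ≤ dist (h x) (h y))
    (h2 : ∀ x y, dist (h x) (h y) ≤ C * dist x y ^ α) : False := by
  have hC : 0 ≤ C := by
    have h3 := h2 (.pt ⟨0, 0, fun _ _ => rfl⟩) o
    rw [dist_o] at h3
    simp only [pow_zero, Real.one_rpow, mul_one] at h3
    exact dist_nonneg.trans h3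
  have key : ∀ D : ℕ, 2 ≤ D → c * ((D : ℝ) - 1) ^ α ≤ 2 * C := by
    intro D hD
    have hr := r_pos (D * D)
    have hrα : 0 < r (D * D) ^ α := Real.rpow_pos_of_pos hr _
    have h3 : (c * r (D * D) ^ α) * ((D : ℝ) - 1) ^ α ≤ 2 * (C * r (D * D) ^ α) := by
      refine distortion hD (fun a => h (emb D a)) (by positivity) hα ?_ ?_
      · intro x y
        rw [← dist_eq_norm]
        refine le_trans ?_ (h1 (emb D x) (emb D y))
        rw [mul_assoc, ← Real.mul_rpow hr.le (by positivity)]
        apply mul_le_mul_of_nonneg_left _ hc.le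
        apply Real.rpow_le_rpow (by positivity) _ hα.le
        rw [dist_emb]
        apply mul_le_mul_of_nonneg_left _ hr.le
        split_ifs with hxy
        · subst hxy
          have : mat (x - x) = 0 := by ext i j; simp [mat]
          rw [this]; simp
        · exact le_max_right _ _
      · intro x t
        rw [← dist_eq_norm]
        refine (h2 _ _).trans ?_
        apply mul_le_mul_of_nonneg_left _ hC
        apply Real.rpow_le_rpow dist_nonneg _ hα.le
        rw [dist_emb]
        have h4 : x - (x + gen t) = gen t := by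
          have h5 : ∀ a b : ZMod 2, a - (a + b) = b := by decide
          ext p; exact h5 _ _
        rw [h4]
        calc r (D * D) * (if x = x + gen t then 0 else max 1 ((mat (gen t)).rank : ℝ))
            ≤ r (D * D) * 1 := by
              apply mul_le_mul_of_nonneg_left _ hr.le
              split_ifs
              · norm_num
              · apply max_le le_rfl
                exact_mod_cast rank_gen t
          _ = r (D * D) := mul_one _
    have h4 : r (D * D) ^ α * (c * ((D : ℝ) - 1) ^ α) ≤ r (D * D) ^ α * (2 * C) := by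
      linarith
    exact le_of_mul_le_mul_left h4 hrα
  have h3 := (tendsto_rpow_atTop hα).comp
    (Filter.tendsto_atTop_add_const_right _ (-1) (tendsto_natCast_atTop_atTop (R := ℝ)))
  obtain ⟨N, hN⟩ := (Filter.tendsto_atTop.1 h3 (2 * C / c + 1)).exists_forall_of_atTop
  have h4 := hN (max N 2) (le_max_left _ _)
  have h5 := key (max N 2) (le_max_right _ _)
  simp only [Function.comp_apply] at h4
  rw [← sub_eq_add_neg] at h4
  have h6 : 2 * C / c + 1 ≤ 2 * C / c := by
    refine h4.trans ?_
    rw [le_div_iff₀ hc]
    linarith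
  linarith

end Q183.FractalSpace
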