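import Mathlib

/-!
# The map `(w, r) ↦ 1/w + 2r` on the closed bidisc
-/

namespace Q183.OpenBall

open Filter Topology Metric OnePoint

/-- The corner case. -/
theorem corner (z0 r0 : ℂ) (hz : ‖z0‖ = 1) (hr : ‖r0‖ = 1) (ε : ℝ) (hε : 0 < ε) :
    ∃ δ > 0, ∀ s : ℂ, ‖s - (z0 + 2 * r0)‖ < δ →
      ∃ z r : ℂ, 1 ≤ ‖z‖ ∧ ‖r‖ ≤ 1 ∧ ‖z - z0‖ < ε ∧ ‖r - r0‖ < ε ∧ z + 2 * r = s := by
  refine ⟨min (1/2) (min (ε/3) (ε^2/18)), by positivity, ?_⟩
  intro s hs
  obtain ⟨t, ht⟩ : ∃ t : ℝ, t = ‖s - (z0 + 2 * r0)‖ := ⟨_, rfl⟩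
  rw [← ht] at hs
  have ht0 : 0 ≤ t := ht ▸ norm_nonneg _
  have ht1 : t < 1/2 := lt_of_lt_of_le hs (min_le_left _ _)
  have ht2 : t < ε/3 := lt_of_lt_of_le hs ((min_le_right _ _).trans (min_le_left _ _))
  have ht3 : t < ε^2/18 := lt_of_lt_of_le hs ((min_le_right _ _).trans (min_le_right _ _))
  -- the unit vector
  obtain ⟨a, ha⟩ : ∃ a : ℂ, a = (starRingEnd ℂ) z0 * r0 := ⟨_, rfl⟩
  obtain ⟨σ, hσ, hσa⟩ : ∃ σ : ℝ, σ ^ 2 = 1 ∧ 0 ≤ a.im * σ := by
    rcases le_total 0 a.im with h | h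
    · exact ⟨1, by norm_num, by linarith⟩
    · exact ⟨-1, by norm_num, by linarith⟩
  have hq : 0 ≤ 2 * t - t ^ 2 := by nlinarith
  obtain ⟨y, hy⟩ : ∃ y : ℝ, y = σ * Real.sqrt (2 * t - t ^ 2) := ⟨_, rfl⟩
  have hy2 : y ^ 2 = 2 * t - t ^ 2 := by
    rw [hy, mul_pow, hσ, Real.sq_sqrt hq, one_mul]
  have hay : 0 ≤ a.im * y := by
    rw [hy, ← mul_assoc]
    exact mul_nonneg hσa (Real.sqrt_nonneg _)
  obtain ⟨ζ, hζ⟩ : ∃ ζ : ℂ, ζ = ⟨1 - t, y⟩ := ⟨_, rfl⟩
  have hζ1 : ‖ζ‖ = 1 := by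
    have h : ‖ζ‖ ^ 2 = 1 := by
      rw [← Complex.normSq_eq_norm_sq, Complex.normSq_apply, hζ]
      simp only
      nlinarith
    have h0 := norm_nonneg ζ
    nlinarith
  have hd : ‖1 - ζ‖ ^ 2 = 2 * t := by
    rw [← Complex.normSq_eq_norm_sq, Complex.normSq_apply, hζ]
    simp only [Complex.sub_re, Complex.sub_im, Complex.one_re, Complex.one_im]
    nlinarith
  have hz2 : (starRingEnd ℂ) z0 * z0 = 1 := by
    rw [mul_comm, Complex.mul_conj, Complex.normSq_eq_norm_sq, hz]; norm_num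
  have ha1 : ‖a‖ = 1 := by rw [ha, norm_mul, RCLike.norm_conj, hz, hr, one_mul]
  have hare : -1 ≤ a.re := by
    have := Complex.abs_re_le_norm a
    rw [ha1] at this
    exact (abs_le.1 this).1
  -- the norm of the main term
  have hmain : 1 + t ≤ ‖z0 + 2 * (r0 * (1 - ζ))‖ := by
    have h1 : ‖z0 + 2 * (r0 * (1 - ζ))‖ = ‖1 + 2 * (a * (1 - ζ))‖ := by
      have h2 : (starRingEnd ℂ) z0 * (z0 + 2 * (r0 * (1 - ζ))) = 1 + 2 * (a * (1 - ζ)) := by
        rw [ha]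
        linear_combination hz2
      rw [← h2, norm_mul, RCLike.norm_conj, hz, one_mul]
    rw [h1]
    have h3 : ‖1 + 2 * (a * (1 - ζ))‖ ^ 2
        = 1 + 4 * (a.re * t + a.im * y) + 4 * (‖a‖ ^ 2 * ‖1 - ζ‖ ^ 2) := by
      rw [← Complex.normSq_eq_norm_sq, ← Complex.normSq_eq_norm_sq, ← Complex.normSq_eq_norm_sq]
      simp only [Complex.normSq_apply, Complex.add_re, Complex.add_im, Complex.mul_re,
        Complex.mul_im, Complex.sub_re, Complex.sub_im, Complex.one_re, Complex.one_im, hζ,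
        Complex.re_ofNat, Complex.im_ofNat]
      ring
    rw [ha1, hd] at h3
    have h4 : (1 + t) ^ 2 ≤ ‖1 + 2 * (a * (1 - ζ))‖ ^ 2 := by
      rw [h3]
      nlinarith [mul_le_mul_of_nonneg_right hare ht0]
    exact le_of_sq_le_sq h4 (norm_nonneg _)
  have hdist : ‖1 - ζ‖ < ε / 3 := by
    have h5 : ‖1 - ζ‖ ^ 2 < (ε / 3) ^ 2 := by rw [hd]; nlinarith
    exact lt_of_pow_lt_pow_left₀ 2 (by positivity) h5
  refine ⟨s - 2 * (r0 * ζ), r0 * ζ, ?_, ?_, ?_, ?_, by ring⟩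
  · have h6 : s - 2 * (r0 * ζ) = (z0 + 2 * (r0 * (1 - ζ))) + (s - (z0 + 2 * r0)) := by ring
    rw [h6]
    have h7 := norm_sub_le (z0 + 2 * (r0 * (1 - ζ)) + (s - (z0 + 2 * r0))) (s - (z0 + 2 * r0))
    rw [add_sub_cancel_right, ← ht] at h7
    linarith
  · rw [norm_mul, hr, hζ1, one_mul]
  · have h8 : s - 2 * (r0 * ζ) - z0 = (s - (z0 + 2 * r0)) + 2 * (r0 * (1 - ζ)) := by ring
    rw [h8]
    refine (norm_add_le _ _).trans_lt ?_
    rw [norm_mul, norm_mul, hr, ← ht]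
    norm_num
    linarith
  · have h9 : r0 * ζ - r0 = -(r0 * (1 - ζ)) := by ring
    rw [h9, norm_neg, norm_mul, hr, one_mul]
    linarith

/-- Openness in the coordinate `z = 1/w`. -/
theorem local_open (z0 r0 : ℂ) (hz : 1 ≤ ‖z0‖) (hr : ‖r0‖ ≤ 1) (ε : ℝ) (hε : 0 < ε) :
    ∃ δ > 0, ∀ s : ℂ, ‖s - (z0 + 2 * r0)‖ < δ →
      ∃ z r : ℂ, 1 ≤ ‖z‖ ∧ ‖r‖ ≤ 1 ∧ ‖z - z0‖ < ε ∧ ‖r - r0‖ < ε ∧ z + 2 * r = s := by
  rcases eq_or_lt_of_le hz with hz1 | hz1
  · rcases eq_or_lt_of_le hr with hr1 | hr1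
    · exact corner z0 r0 hz1.symm hr1 ε hε
    · refine ⟨min ε (1 - ‖r0‖), by simp [hε, hr1], fun s hs => ?_⟩
      have h1 : ‖s - (z0 + 2 * r0)‖ < ε := lt_of_lt_of_le hs (min_le_left _ _)
      have h2 : ‖s - (z0 + 2 * r0)‖ < 1 - ‖r0‖ := lt_of_lt_of_le hs (min_le_right _ _)
      have h3 : ‖(s - z0) / 2 - r0‖ ≤ ‖s - (z0 + 2 * r0)‖ := by
        have : (s - z0) / 2 - r0 = (s - (z0 + 2 * r0)) / 2 := by ring
        have h0 := norm_nonneg (s - (z0 + 2 * r0))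
        have hn : ‖(2 : ℂ)‖ = 2 := by norm_num
        rw [this, norm_div, hn]
        linarith
      refine ⟨z0, (s - z0) / 2, hz, ?_, by simpa using hε, by linarith, by ring⟩
      have h4 := norm_add_le ((s - z0) / 2 - r0) r0
      rw [sub_add_cancel] at h4
      linarith
  · refine ⟨min ε (‖z0‖ - 1), by simp [hε, hz1], fun s hs => ?_⟩
    have h1 : ‖s - (z0 + 2 * r0)‖ < ε := lt_of_lt_of_le hs (min_le_left _ _)
    have h2 : ‖s - (z0 + 2 * r0)‖ < ‖z0‖ - 1 := lt_of_lt_of_le hs (min_le_right _ _)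
    have h3 : s - 2 * r0 - z0 = s - (z0 + 2 * r0) := by ring
    refine ⟨s - 2 * r0, r0, ?_, hr, by rw [h3]; exact h1, by simpa using hε, by ring⟩
    have h4 := norm_sub_norm_le z0 (z0 - (s - 2 * r0))
    rw [sub_sub_cancel, norm_sub_rev, h3] at h4
    linarith

/-- The closed bidisc. -/
abbrev K : Type := {p : ℂ × ℂ // ‖p.1‖ ≤ 1 ∧ ‖p.2‖ ≤ 1}

open Classical in
/-- The map `(w, r) ↦ 1/w + 2r` to the Riemann sphere. -/
noncomputable def f (p : K) : OnePoint ℂ :=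
  if p.1.1 = 0 then ∞ else ((p.1.1⁻¹ + 2 * p.1.2 : ℂ) : OnePoint ℂ)

theorem f_zero {p : K} (h : p.1.1 = 0) : f p = ∞ := by simp [f, h]

theorem f_ne {p : K} (h : p.1.1 ≠ 0) : f p = ((p.1.1⁻¹ + 2 * p.1.2 : ℂ) : OnePoint ℂ) := by
  simp [f, h]

theorem continuous_f : Continuous f := by
  rw [continuous_iff_continuousAt]
  intro p
  by_cases hp : p.1.1 = 0
  · have h1 : Tendsto f (𝓝 p) (𝓝 ∞) := by
      rw [OnePoint.hasBasis_nhds_infty.tendsto_right_iff]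
      rintro s ⟨_, hs⟩
      obtain ⟨R, hR⟩ := hs.isBounded.subset_closedBall (0 : ℂ)
      have hev : ∀ᶠ q : K in 𝓝 p, ‖q.1.1‖ < 1 / (|R| + 3) := by
        have hc : Continuous fun q : K => ‖q.1.1‖ := by fun_prop
        refine hc.continuousAt.eventually_lt continuousAt_const ?_
        rw [hp, norm_zero]
        positivity
      filter_upwards [hev] with q hq
      by_cases hq0 : q.1.1 = 0
      · rw [f_zero hq0]; exact Or.inr rfl
      · left
        refine ⟨_, ?_, (f_ne hq0).symm⟩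
        intro hmem
        have h2 := hR hmem
        rw [mem_closedBall_zero_iff] at h2
        have h3 : |R| + 3 < ‖q.1.1⁻¹‖ := by
          rw [norm_inv]
          rw [lt_inv_comm₀ (by positivity) (norm_pos_iff.2 hq0), ← one_div]
          exact hq
        have h4 := norm_sub_le (q.1.1⁻¹ + 2 * q.1.2) (2 * q.1.2)
        have hn : ‖(2 : ℂ)‖ = 2 := by norm_num
        rw [add_sub_cancel_right, norm_mul, hn] at h4
        have h5 := q.2.2
        have h6 := le_abs_self R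
        linarith
    rw [ContinuousAt, f_zero hp]
    exact h1
  · have h1 : ContinuousAt (fun q : K => ((q.1.1⁻¹ + 2 * q.1.2 : ℂ) : OnePoint ℂ)) p := by
      refine OnePoint.continuous_coe.continuousAt.comp ?_
      have hc : Continuous fun q : K => q.1.1 := by fun_prop
      have hc2 : Continuous fun q : K => 2 * q.1.2 := by fun_prop
      exact (hc.continuousAt.inv₀ hp).add hc2.continuousAt
    refine h1.congr ?_
    have hc : Continuous fun q : K => q.1.1 := by fun_prop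
    filter_upwards [hc.continuousAt.eventually_ne hp] with q hq
    exact (f_ne hq).symm

theorem isOpenMap_f : IsOpenMap f := by
  refine IsOpenMap.of_nhds_le fun p S hS => ?_
  rw [mem_map] at hS
  obtain ⟨ε, hε, hball⟩ := Metric.mem_nhds_iff.1 hS
  have hb : ∀ q : K, ‖q.1.1 - p.1.1‖ < ε → ‖q.1.2 - p.1.2‖ < ε → f q ∈ S := by
    intro q h1 h2
    apply hball
    rw [Metric.mem_ball, Subtype.dist_eq, Prod.dist_eq, dist_eq_norm, dist_eq_norm]
    exact max_lt h1 h2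
  by_cases hp : p.1.1 = 0
  · rw [f_zero hp, OnePoint.hasBasis_nhds_infty.mem_iff]
    refine ⟨closedBall 0 (3 + 1 / ε), ⟨isClosed_closedBall, isCompact_closedBall _ _⟩, ?_⟩
    rintro x (⟨z, hz, rfl⟩ | hx)
    · have hz' : 3 + 1 / ε < ‖z‖ := by
        have : ¬ ‖z‖ ≤ 3 + 1 / ε := by
          intro h
          exact hz (mem_closedBall_zero_iff.2 h)
        exact not_le.1 this
      have hε' : 0 < 1 / ε := by positivity
      have h1 : 1 + 1 / ε < ‖z - 2 * p.1.2‖ := by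
        have h4 := norm_sub_norm_le z (2 * p.1.2)
        have h5 := p.2.2
        have hn : ‖(2 : ℂ)‖ = 2 := by norm_num
        rw [norm_mul, hn] at h4
        linarith
      have hne : z - 2 * p.1.2 ≠ 0 := by
        rw [← norm_pos_iff]
        linarith
      have hinv1 : ‖(z - 2 * p.1.2)⁻¹‖ < 1 := by
        rw [norm_inv]
        exact inv_lt_one_of_one_lt₀ (by linarith)
      have hinv2 : ‖(z - 2 * p.1.2)⁻¹‖ < ε := by
        rw [norm_inv, inv_lt_comm₀ (by linarith) hε, ← one_div]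
        linarith
      have h2 := hb ⟨((z - 2 * p.1.2)⁻¹, p.1.2), hinv1.le, p.2.2⟩
        (by simp only [hp, sub_zero]; exact hinv2) (by simpa using hε)
      rw [f_ne (by exact inv_ne_zero hne)] at h2
      simp only [inv_inv, sub_add_cancel] at h2
      exact h2
    · rw [Set.mem_singleton_iff] at hx
      rw [hx, ← f_zero hp]
      exact hb p (by simpa using hε) (by simpa using hε)
  · rw [f_ne hp, OnePoint.nhds_coe_eq, mem_map, Metric.mem_nhds_iff]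
    have hz0 : 1 ≤ ‖p.1.1⁻¹‖ := by
      rw [norm_inv]
      exact (one_le_inv₀ (norm_pos_iff.2 hp)).2 p.2.1
    obtain ⟨δ, hδ, hloc⟩ := local_open p.1.1⁻¹ p.1.2 hz0 p.2.2 ε hε
    refine ⟨δ, hδ, fun s hs => ?_⟩
    rw [Metric.mem_ball, dist_eq_norm] at hs
    obtain ⟨z, r, h1, h2, h3, h4, h5⟩ := hloc s hs
    have hz : z ≠ 0 := by
      rw [← norm_pos_iff]; linarith
    have hw1 : ‖z⁻¹‖ ≤ 1 := by
      rw [norm_inv]; exact inv_le_one_of_one_le₀ h1
    have hw2 : ‖z⁻¹ - p.1.1‖ < ε := by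
      have h6 : z⁻¹ - p.1.1 = z⁻¹ * (p.1.1⁻¹ - z) * p.1.1 := by
        field_simp
      rw [h6, norm_mul, norm_mul, norm_sub_rev]
      have h7 := p.2.1
      calc ‖z⁻¹‖ * ‖z - p.1.1⁻¹‖ * ‖p.1.1‖ ≤ 1 * ‖z - p.1.1⁻¹‖ * 1 := by gcongr
        _ < ε := by linarith
    have h8 := hb ⟨(z⁻¹, r), hw1, h2⟩ hw2 h4
    rw [f_ne (by exact inv_ne_zero hz)] at h8
    simp only [inv_inv, h5] at h8
    exact h8

theorem f_inj {p q : K} (h1 : f p = f q) (h2 : p.1.2 = q.1.2) : p = q := by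
  have h3 : p.1.1 = q.1.1 := by
    by_cases hp : p.1.1 = 0
    · by_cases hq : q.1.1 = 0
      · rw [hp, hq]
      · rw [f_zero hp, f_ne hq] at h1
        exact (OnePoint.infty_ne_coe _ h1).elim
    · by_cases hq : q.1.1 = 0
      · rw [f_zero hq, f_ne hp] at h1
        exact (OnePoint.coe_ne_infty _ h1).elim
      · rw [f_ne hp, f_ne hq, OnePoint.coe_eq_coe, h2] at h1
        exact inv_injective (add_right_cancel h1)
  exact Subtype.ext (Prod.ext h3 h2)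

end Q183.OpenBall
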