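import Mathlib

/-!
# A transfinite choice of generators of a subgroup avoiding prescribed values
-/

open Set Cardinal Function

namespace Q183.PlasticChoice

variable {V : Type} [AddCommGroup V]

theorem mk_span_lt {S : Set V} (hS : #S < 𝔠) : #(Submodule.span ℤ S) < 𝔠 := by
  have h1 : #(Submodule.span ℤ S) ≤ #(S →₀ ℤ) := by
    refine Cardinal.mk_le_of_surjective (f := fun c : S →₀ ℤ =>
      (⟨Finsupp.linearCombination ℤ (Subtype.val : S → V) c, ?_⟩ : Submodule.span ℤ S)) ?_
    · rw [Finsupp.mem_span_iff_linearCombination]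
      exact ⟨c, rfl⟩
    · rintro ⟨v, hv⟩
      obtain ⟨c, hc⟩ := (Finsupp.mem_span_iff_linearCombination ℤ S v).1 hv
      exact ⟨c, Subtype.ext hc⟩
  refine h1.trans_lt ?_
  rcases isEmpty_or_nonempty S with h | h
  · have : #(S →₀ ℤ) ≤ 1 := by
      rw [Cardinal.le_one_iff_subsingleton]
      infer_instance
    exact this.trans_lt (one_lt_aleph0.trans aleph0_lt_continuum)
  · rw [mk_finsupp_of_infinite']
    refine max_lt hS ?_
    rw [mk_denumerable]
    exact aleph0_lt_continuum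

theorem exists_param [IsAddTorsionFree V] {Y N : Set V} (hY : #Y < 𝔠) (hN : #N < 𝔠)
    {Q : Set V} (hQ : Q.Countable) {G : V → V} {e : (ℕ → Bool) → V} (he : Injective e)
    (hG : ∀ m : ℤ, Injective fun s => G (e s) - m • e s) :
    ∃ s, (∀ m : ℤ, G (e s) - m • e s ∉ Submodule.span ℤ (Q ∪ Y)) ∧
      ∀ m : ℤ, m ≠ 0 → ∀ ν ∈ N, ν - m • e s ∉ Submodule.span ℤ (Q ∪ Y) := by
  have hS : #(Q ∪ Y : Set V) < 𝔠 := by
    refine (mk_union_le Q Y).trans_lt (add_lt_of_lt aleph0_le_continuum ?_ hY)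
    exact ((le_aleph0_iff_set_countable).2 hQ).trans_lt aleph0_lt_continuum
  have hH := mk_span_lt hS
  by_contra hcon
  push Not at hcon
  have hwit : ∀ s, (∃ p : ℤ × Submodule.span ℤ (Q ∪ Y), G (e s) - p.1 • e s = p.2) ∨
      ∃ p : (ℤ × N) × Submodule.span ℤ (Q ∪ Y), p.1.1 ≠ 0 ∧ (p.1.2 : V) - p.1.1 • e s = p.2 := by
    intro s
    by_cases h : ∀ m : ℤ, G (e s) - m • e s ∉ Submodule.span ℤ (Q ∪ Y)
    · obtain ⟨m, hm, ν, hν, h1⟩ := hcon s h
      exact Or.inr ⟨((m, ⟨ν, hν⟩), ⟨_, h1⟩), hm, rfl⟩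
    · push Not at h
      obtain ⟨m, hm⟩ := h
      exact Or.inl ⟨(m, ⟨_, hm⟩), rfl⟩
  have hinj : ∃ w : (ℕ → Bool) → (ℤ × Submodule.span ℤ (Q ∪ Y)) ⊕
      ((ℤ × N) × Submodule.span ℤ (Q ∪ Y)), Injective w := by
    have h2 : ∀ s, ∃ w : (ℤ × Submodule.span ℤ (Q ∪ Y)) ⊕
        ((ℤ × N) × Submodule.span ℤ (Q ∪ Y)),
        (∀ p, w = Sum.inl p → G (e s) - p.1 • e s = p.2) ∧
        ∀ p, w = Sum.inr p → p.1.1 ≠ 0 ∧ (p.1.2 : V) - p.1.1 • e s = p.2 := by
      intro s
      rcases hwit s with ⟨p, hp⟩ | ⟨p, hp⟩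
      · refine ⟨Sum.inl p, ?_, ?_⟩
        · intro q hq
          rw [← Sum.inl_injective hq]; exact hp
        · intro q hq
          exact absurd hq (by simp)
      · refine ⟨Sum.inr p, ?_, ?_⟩
        · intro q hq
          exact absurd hq (by simp)
        · intro q hq
          rw [← Sum.inr_injective hq]; exact hp
    choose w hw1 hw2 using h2
    refine ⟨w, fun s t hst => ?_⟩
    rcases h : w s with p | p
    · have h3 := hw1 s p h
      have h4 := hw1 t p (hst ▸ h)
      exact hG p.1 (h3.trans h4.symm)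
    · obtain ⟨h3, h5⟩ := hw2 s p h
      obtain ⟨_, h6⟩ := hw2 t p (hst ▸ h)
      apply he
      have h7 : p.1.1 • e s = p.1.1 • e t := by
        have := h5.trans h6.symm
        exact sub_right_injective this
      exact zsmul_right_injective h3 h7
  obtain ⟨w, hw⟩ := hinj
  have h3 := mk_le_of_injective hw
  have h4 : #((ℤ × Submodule.span ℤ (Q ∪ Y)) ⊕ ((ℤ × N) × Submodule.span ℤ (Q ∪ Y))) < 𝔠 := by
    rw [← add_def, ← mul_def, ← mul_def, ← mul_def, mk_denumerable]
    have hZ : ℵ₀ < 𝔠 := aleph0_lt_continuum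
    exact add_lt_of_lt aleph0_le_continuum (mul_lt_of_lt aleph0_le_continuum hZ hH)
      (mul_lt_of_lt aleph0_le_continuum (mul_lt_of_lt aleph0_le_continuum hZ hN) hH)
  have h5 : #(ℕ → Bool) = 𝔠 := by simp
  rw [h5] at h3
  exact absurd h4 (not_lt.2 h3)

theorem exists_choice [IsAddTorsionFree V] {I : Type} (hI : #I ≤ 𝔠) {Q : Set V} (hQ : Q.Countable)
    (F : I → V → V) (e : I → (ℕ → Bool) → V) (he : ∀ i, Injective (e i))
    (hF : ∀ i (m : ℤ), Injective fun s => F i (e i s) - m • e i s) :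
    ∃ x : I → V, ∀ i, F i (x i) ∉ Submodule.span ℤ (Q ∪ range x) := by
  classical
  obtain ⟨r, wo, hr⟩ := exists_ord_eq I
  have hwf : WellFounded r := wo.wf
  let good : I → Set V → Set V → (ℕ → Bool) → Prop := fun i Y N s =>
    (∀ m : ℤ, F i (e i s) - m • e i s ∉ Submodule.span ℤ (Q ∪ Y)) ∧
      ∀ m : ℤ, m ≠ 0 → ∀ ν ∈ N, ν - m • e i s ∉ Submodule.span ℤ (Q ∪ Y)
  let pick : I → Set V → Set V → (ℕ → Bool) := fun i Y N =>
    if h : ∃ s, good i Y N s then h.choose else fun _ => false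
  obtain ⟨x, hx⟩ : ∃ x : I → V, ∀ i, x i =
      e i (pick i (x '' {j | r j i}) ((fun j => F j (x j)) '' {j | r j i})) := by
    refine ⟨hwf.fix fun i ih => e i (pick i {v | ∃ j, ∃ h : r j i, ih j h = v}
      {v | ∃ j, ∃ h : r j i, F j (ih j h) = v}), fun i => ?_⟩
    rw [hwf.fix_eq]
    congr 2
    · ext v
      constructor
      · rintro ⟨j, h, rfl⟩
        exact ⟨j, h, rfl⟩
      · rintro ⟨j, h, rfl⟩
        exact ⟨j, h, rfl⟩
    · ext v
      constructor
      · rintro ⟨j, h, rfl⟩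
        exact ⟨j, h, rfl⟩
      · rintro ⟨j, h, rfl⟩
        exact ⟨j, h, rfl⟩
  have hcard : ∀ i, #{j | r j i} < 𝔠 := by
    intro i
    have h1 := card_typein_lt (r := r) i hr
    rw [Ordinal.card_typein] at h1
    exact h1.trans_le hI
  have hgood : ∀ i, ∃ s, x i = e i s ∧
      good i (x '' {j | r j i}) ((fun j => F j (x j)) '' {j | r j i}) s := by
    intro i
    have h1 : ∃ s, good i (x '' {j | r j i}) ((fun j => F j (x j)) '' {j | r j i}) s :=
      exists_param (mk_image_le.trans_lt (hcard i)) (mk_image_le.trans_lt (hcard i)) hQ (he i)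
        (hF i)
    refine ⟨pick i (x '' {j | r j i}) ((fun j => F j (x j)) '' {j | r j i}), hx i, ?_⟩
    simp only [pick]
    rw [dif_pos h1]
    exact h1.choose_spec
  refine ⟨x, fun β hβ => ?_⟩
  -- finitely many generators suffice
  have hfin : ∀ s : Set I, F β (x β) ∈ Submodule.span ℤ (Q ∪ x '' s) →
      F β (x β) ∈ Submodule.span ℤ Q ∨
        ∃ α ∈ s, F β (x β) ∈ Submodule.span ℤ (Q ∪ x '' {j | r j α ∨ j = α}) := by
    intro s hs
    obtain ⟨T, hT, hzT⟩ := Submodule.mem_span_finite_of_mem_span hs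
    obtain ⟨T', hT's, hT'⟩ : ∃ T' : Finset I, (T' : Set I) ⊆ s ∧
        (T : Set V) ⊆ Q ∪ x '' (T' : Set I) := by
      have h1 : ((T.filter (· ∉ Q) : Finset V) : Set V) ⊆ x '' s := by
        intro v hv
        rw [Finset.mem_coe, Finset.mem_filter] at hv
        rcases hT hv.1 with h | h
        · exact absurd h hv.2
        · exact h
      obtain ⟨T', hT's, hT'⟩ := Finset.subset_set_image_iff.1 h1
      refine ⟨T', hT's, fun v hv => ?_⟩
      by_cases hvQ : v ∈ Q
      · exact Or.inl hvQ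
      · have h2 : v ∈ T.filter (· ∉ Q) := Finset.mem_filter.2 ⟨hv, hvQ⟩
        rw [← hT', Finset.mem_image] at h2
        obtain ⟨j, hj, hjv⟩ := h2
        exact Or.inr ⟨j, hj, hjv⟩
    rcases T'.eq_empty_or_nonempty with h | h
    · left
      refine Submodule.span_mono ?_ hzT
      rw [h] at hT'
      simpa using hT'
    · right
      -- the maximum of `T'`
      obtain ⟨α, hα, hmax⟩ : ∃ α ∈ T', ∀ j ∈ T', r j α ∨ j = α := by
        clear hT' hT's
        induction h using Finset.Nonempty.cons_induction with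
        | singleton a => exact ⟨a, by simp, fun j hj => Or.inr (by simpa using hj)⟩
        | cons a t ha ht ih =>
          obtain ⟨α, hα, hmax⟩ := ih
          rcases trichotomous_of r a α with h1 | h1 | h1
          · refine ⟨α, by simp [hα], fun j hj => ?_⟩
            rcases Finset.mem_cons.1 hj with rfl | hj
            · exact Or.inl h1
            · exact hmax j hj
          · refine ⟨α, by simp [hα], fun j hj => ?_⟩
            rcases Finset.mem_cons.1 hj with rfl | hj
            · exact Or.inr h1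
            · exact hmax j hj
          · refine ⟨a, by simp, fun j hj => ?_⟩
            rcases Finset.mem_cons.1 hj with rfl | hj
            · exact Or.inr rfl
            · rcases hmax j hj with h2 | rfl
              · exact Or.inl (trans_of r h2 h1)
              · exact Or.inl h1
      refine ⟨α, hT's hα, Submodule.span_mono ?_ hzT⟩
      refine hT'.trans (union_subset_union_right _ (image_mono fun j hj => hmax j hj))
  have hβ' : ∃ α, F β (x β) ∈ Submodule.span ℤ (Q ∪ x '' {j | r j α ∨ j = α}) := by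
    rw [← image_univ] at hβ
    rcases hfin univ hβ with h | ⟨α, _, h⟩
    · exact ⟨β, Submodule.span_mono subset_union_left h⟩
    · exact ⟨α, h⟩
  obtain ⟨α, hα, hmin⟩ := hwf.has_min
    {α | F β (x β) ∈ Submodule.span ℤ (Q ∪ x '' {j | r j α ∨ j = α})} hβ'
  -- decompose
  have hdec : ∀ α, F β (x β) ∈ Submodule.span ℤ (Q ∪ x '' {j | r j α ∨ j = α}) →
      ∃ m : ℤ, F β (x β) - m • x α ∈ Submodule.span ℤ (Q ∪ x '' {j | r j α}) := by
    intro α hα
    have h1 : Q ∪ x '' {j | r j α ∨ j = α} ⊆ insert (x α) (Q ∪ x '' {j | r j α}) := by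
      rintro v (hv | ⟨j, hj | rfl, rfl⟩)
      · exact Or.inr (Or.inl hv)
      · exact Or.inr (Or.inr ⟨j, hj, rfl⟩)
      · exact Or.inl rfl
    have h2 := Submodule.span_mono h1 hα
    rw [Submodule.mem_span_insert] at h2
    obtain ⟨m, z, hz, h3⟩ := h2
    refine ⟨m, ?_⟩
    rw [h3]
    simpa using hz
  rcases trichotomous_of r α β with h | h | h
  · -- α < β
    obtain ⟨s, hs, hg, _⟩ := hgood β
    apply hg 0
    rw [← hs, zero_smul, sub_zero]
    refine Submodule.span_mono (union_subset_union_right _ (image_mono ?_)) hα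
    rintro j (hj | rfl)
    · exact trans_of r hj h
    · exact h
  · subst h
    obtain ⟨m, hm⟩ := hdec α hα
    obtain ⟨s, hs, hg, _⟩ := hgood α
    exact hg m (by rw [← hs]; exact hm)
  · -- β < α
    obtain ⟨m, hm⟩ := hdec α hα
    obtain ⟨s, hs, _, hg⟩ := hgood α
    by_cases hm0 : m = 0
    · rw [hm0, zero_smul, sub_zero] at hm
      rcases hfin _ hm with h1 | ⟨γ, hγ, h1⟩
      · obtain ⟨t, ht, hg', _⟩ := hgood β
        apply hg' 0
        rw [← ht, zero_smul, sub_zero]
        exact Submodule.span_mono subset_union_left h1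
      · exact hmin γ h1 hγ
    · exact hg m hm0 _ ⟨β, h, rfl⟩ (by rw [← hs]; exact hm)

end Q183.PlasticChoice
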