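import Mathlib

/-!
# Cantor sets on which finitely many continuous maps are injective
-/

open Set Cardinal

namespace Q183.PlasticPerfect

variable {ι X Y : Type}

/-- `A` is covered by countably many fibres of the maps `Φ i` -/
def Small (Φ : ι → X → Y) (A : Set X) : Prop :=
  ∃ S : Set (ι × Y), S.Countable ∧ ∀ x ∈ A, ∃ p ∈ S, Φ p.1 x = p.2

theorem Small.mono {Φ : ι → X → Y} {A B : Set X} (h : Small Φ B) (hAB : A ⊆ B) : Small Φ A := by
  obtain ⟨S, hS, h1⟩ := h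
  exact ⟨S, hS, fun x hx => h1 x (hAB hx)⟩

theorem Small.iUnion {Φ : ι → X → Y} {κ : Type*} [Countable κ] {A : κ → Set X}
    (h : ∀ k, Small Φ (A k)) : Small Φ (⋃ k, A k) := by
  choose S hS h1 using h
  refine ⟨⋃ k, S k, countable_iUnion hS, fun x hx => ?_⟩
  obtain ⟨k, hk⟩ := mem_iUnion.1 hx
  obtain ⟨p, hp, h2⟩ := h1 k x hk
  exact ⟨p, mem_iUnion.2 ⟨k, hp⟩, h2⟩

theorem Small.empty {Φ : ι → X → Y} : Small Φ ∅ := ⟨∅, countable_empty, fun _ h => h.elim⟩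

theorem Small.union {Φ : ι → X → Y} {A B : Set X} (h : Small Φ A) (h' : Small Φ B) :
    Small Φ (A ∪ B) := by
  obtain ⟨S, hS, h1⟩ := h
  obtain ⟨T, hT, h2⟩ := h'
  refine ⟨S ∪ T, hS.union hT, fun x hx => ?_⟩
  rcases hx with hx | hx
  · obtain ⟨p, hp, h3⟩ := h1 x hx
    exact ⟨p, Or.inl hp, h3⟩
  · obtain ⟨p, hp, h3⟩ := h2 x hx
    exact ⟨p, Or.inr hp, h3⟩

variable [Finite ι] [MetricSpace X] [SecondCountableTopology X] [TopologicalSpace Y] [T2Space Y]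

theorem split {Φ : ι → X → Y} (hΦ : ∀ i, Continuous (Φ i)) {A : Set X} (hA : IsCompact A)
    (hs : ¬ Small Φ A) : ∃ A0 A1 : Set X, (IsCompact A0 ∧ ¬ Small Φ A0 ∧ A0 ⊆ A) ∧
      (IsCompact A1 ∧ ¬ Small Φ A1 ∧ A1 ⊆ A) ∧ ∀ x ∈ A0, ∀ y ∈ A1, ∀ i, Φ i x ≠ Φ i y := by
  obtain ⟨A', hA'⟩ : ∃ A', A' = {x ∈ A | ∀ ε > 0, ¬ Small Φ (A ∩ Metric.closedBall x ε)} :=
    ⟨_, rfl⟩
  have h1 : Small Φ (A \ A') := by
    have h2 : ∀ x : X, ∃ ε > 0, x ∈ A \ A' → Small Φ (A ∩ Metric.closedBall x ε) := by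
      intro x
      by_cases hx : x ∈ A \ A'
      · have h3 := hx.2
        rw [hA'] at h3
        simp only [mem_ofPred_eq, not_and, not_forall, not_not] at h3
        obtain ⟨ε, hε, h4⟩ := h3 hx.1
        exact ⟨ε, hε, fun _ => h4⟩
      · exact ⟨1, one_pos, fun h => absurd h hx⟩
    choose ε hε h3 using h2
    obtain ⟨t, ht, htc, hcov⟩ := TopologicalSpace.countable_cover_nhdsWithin
      (s := A \ A') (f := fun x => Metric.closedBall x (ε x))
      (fun x _ => mem_nhdsWithin_of_mem_nhds (Metric.closedBall_mem_nhds x (hε x)))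
    have : Countable t := htc.to_subtype
    refine (Small.iUnion (κ := t) (fun k => h3 k.1 (ht k.2))).mono ?_
    intro x hx
    obtain ⟨y, hy, hxy⟩ := mem_iUnion₂.1 (hcov hx)
    exact mem_iUnion.2 ⟨⟨y, hy⟩, hx.1, hxy⟩
  have hsub : A' ⊆ A := by rw [hA']; exact fun x hx => hx.1
  have h2 : ¬ Small Φ A' := by
    intro h
    apply hs
    exact (h.union h1).mono (by rw [union_sdiff_cancel hsub])
  obtain ⟨x, hx⟩ : A'.Nonempty := by
    rw [nonempty_iff_ne_empty]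
    rintro h
    exact h2 (h ▸ Small.empty)
  obtain ⟨y, hy, hxy⟩ : ∃ y ∈ A', ∀ i, Φ i x ≠ Φ i y := by
    by_contra hcon
    push Not at hcon
    apply h2
    refine ⟨range fun i => (i, Φ i x), (finite_range _).countable, fun y hy => ?_⟩
    obtain ⟨i, hi⟩ := hcon y hy
    exact ⟨(i, Φ i x), ⟨i, rfl⟩, hi.symm⟩
  have h3 : ∀ᶠ p in nhds (x, y), ∀ i, Φ i p.1 ≠ Φ i p.2 := by
    rw [Filter.eventually_all]
    intro i
    exact (isOpen_ne_fun ((hΦ i).comp continuous_fst) ((hΦ i).comp continuous_snd)).mem_nhds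
      (hxy i)
  rw [nhds_prod_eq] at h3
  obtain ⟨U, hU, V, hV, hUV⟩ := Filter.mem_prod_iff.1 h3
  obtain ⟨ε, hε, hεU⟩ := Metric.nhds_basis_closedBall.mem_iff.1 hU
  obtain ⟨δ, hδ, hδV⟩ := Metric.nhds_basis_closedBall.mem_iff.1 hV
  rw [hA'] at hx hy
  refine ⟨A ∩ Metric.closedBall x ε, A ∩ Metric.closedBall y δ,
    ⟨hA.inter_right Metric.isClosed_closedBall, hx.2 ε hε, inter_subset_left⟩,
    ⟨hA.inter_right Metric.isClosed_closedBall, hy.2 δ hδ, inter_subset_left⟩, ?_⟩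
  intro x' hx' y' hy' i
  exact hUV (mk_mem_prod (hεU hx'.2) (hδV hy'.2)) i

open CantorScheme PiNat in
/-- A Cantor set on which all the maps are injective. -/
theorem exists_cantor {Φ : ι → X → Y} (hΦ : ∀ i, Continuous (Φ i)) {A : Set X} (hA : IsCompact A)
    (hs : ¬ Small Φ A) : ∃ e : (ℕ → Bool) → X, ∀ s t, s ≠ t → ∀ i, Φ i (e s) ≠ Φ i (e t) := by
  choose C0 C1 h0 h1 hsep using fun (B : {B : Set X // IsCompact B ∧ ¬ Small Φ B}) =>
    split hΦ B.2.1 B.2.2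
  obtain ⟨D, hD0, hDf, hDt⟩ : ∃ D : List Bool → {B : Set X // IsCompact B ∧ ¬ Small Φ B},
      D [] = ⟨A, hA, hs⟩ ∧ (∀ l, D (false :: l) = ⟨C0 (D l), (h0 (D l)).1, (h0 (D l)).2.1⟩) ∧
        ∀ l, D (true :: l) = ⟨C1 (D l), (h1 (D l)).1, (h1 (D l)).2.1⟩ := by
    refine ⟨fun l => List.rec ⟨A, hA, hs⟩ (fun a _ B => Bool.rec ⟨C0 B, (h0 B).1, (h0 B).2.1⟩
      ⟨C1 B, (h1 B).1, (h1 B).2.1⟩ a) l, rfl, fun l => rfl, fun l => rfl⟩
  have hanti : ∀ (s : ℕ → Bool) n, (D (res s (n + 1))).1 ⊆ (D (res s n)).1 := by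
    intro s n
    rw [res_succ]
    cases s n
    · rw [hDf]; exact (h0 _).2.2
    · rw [hDt]; exact (h1 _).2.2
  have hne : ∀ l, (D l).1.Nonempty := by
    intro l
    rw [nonempty_iff_ne_empty]
    intro h
    exact (D l).2.2 (h ▸ Small.empty)
  have hex : ∀ s : ℕ → Bool, ∃ x, ∀ n, x ∈ (D (res s n)).1 := by
    intro s
    obtain ⟨x, hx⟩ := IsCompact.nonempty_iInter_of_sequence_nonempty_isCompact_isClosed
      (fun n => (D (res s n)).1) (hanti s) (fun n => hne _) (D (res s 0)).2.1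
      (fun n => (D (res s n)).2.1.isClosed)
    exact ⟨x, mem_iInter.1 hx⟩
  choose e he using hex
  refine ⟨e, fun s t hst i => ?_⟩
  have h2 : ∃ n, s n ≠ t n := Function.ne_iff.1 hst
  classical
  obtain ⟨n, hn, hmin⟩ : ∃ n, s n ≠ t n ∧ ∀ m < n, s m = t m :=
    ⟨Nat.find h2, Nat.find_spec h2, fun m hm => not_not.1 (Nat.find_min h2 hm)⟩
  have h3 : res s n = res t n := res_eq_res.2 fun m hm => hmin m hm
  have h4 := he s (n + 1)
  have h5 := he t (n + 1)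
  rw [res_succ] at h4 h5
  rw [← h3] at h5
  cases hsn : s n
  · have htn : t n = true := by
      cases h : t n
      · exact absurd (hsn.trans h.symm) hn
      · rfl
    rw [hsn, hDf] at h4
    rw [htn, hDt] at h5
    exact hsep _ _ h4 _ h5 i
  · have htn : t n = false := by
      cases h : t n
      · rfl
      · exact absurd (hsn.trans h.symm) hn
    rw [hsn, hDt] at h4
    rw [htn, hDf] at h5
    exact (hsep _ _ h5 _ h4 i).symm

/-- In a proper space: if the whole space is not covered by countably many fibres, there is a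
Cantor set on which all the maps are injective. -/
theorem exists_cantor' [ProperSpace X] [Nonempty X] {Φ : ι → X → Y} (hΦ : ∀ i, Continuous (Φ i))
    (hs : ¬ Small Φ univ) :
    ∃ e : (ℕ → Bool) → X, ∀ s t, s ≠ t → ∀ i, Φ i (e s) ≠ Φ i (e t) := by
  obtain ⟨x₀⟩ := ‹Nonempty X›
  obtain ⟨n, hn⟩ : ∃ n : ℕ, ¬ Small Φ (Metric.closedBall x₀ n) := by
    by_contra hcon
    push Not at hcon
    apply hs
    rw [← Metric.iUnion_closedBall_nat x₀]
    exact Small.iUnion hcon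
  exact exists_cantor hΦ (isCompact_closedBall _ _) hn

end Q183.PlasticPerfect
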