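import Mathlib
import Pool.Agent.Q183.PlasticPerfect
import Pool.Agent.Q183.PlasticChoice

/-!
# A dense subgroup of the plane all of whose `ℓ₁`-non-expansive self-maps are trivial
-/

open Set Cardinal Function

namespace Q183.PlasticMain

open Q183.PlasticPerfect Q183.PlasticChoice

/-- the `ℓ₁` distance -/
def d1 (u v : ℝ × ℝ) : ℝ := |u.1 - v.1| + |u.2 - v.2|

theorem d1_nonneg (u v : ℝ × ℝ) : 0 ≤ d1 u v := by unfold d1; positivity

theorem d1_eq_zero {u v : ℝ × ℝ} (h : d1 u v = 0) : u = v := by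
  unfold d1 at h
  have h1 := abs_nonneg (u.1 - v.1)
  have h2 := abs_nonneg (u.2 - v.2)
  ext
  · have : |u.1 - v.1| = 0 := by linarith
    linarith [abs_eq_zero.1 this]
  · have : |u.2 - v.2| = 0 := by linarith
    linarith [abs_eq_zero.1 this]

/-- non-expansive self-maps of the `ℓ₁` plane -/
def NonExp (F : ℝ × ℝ → ℝ × ℝ) : Prop := ∀ u v, d1 (F u) (F v) ≤ d1 u v

theorem NonExp.continuous {F : ℝ × ℝ → ℝ × ℝ} (hF : NonExp F) : Continuous F := by
  have : LipschitzWith 2 F := by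
    apply LipschitzWith.of_dist_le_mul
    intro u v
    have h1 := hF u v
    unfold d1 at h1
    rw [Prod.dist_eq, Prod.dist_eq, Real.dist_eq, Real.dist_eq, Real.dist_eq, Real.dist_eq]
    have h2 := le_max_left |u.1 - v.1| |u.2 - v.2|
    have h3 := le_max_right |u.1 - v.1| |u.2 - v.2|
    have h4 := abs_nonneg ((F u).1 - (F v).1)
    have h5 := abs_nonneg ((F u).2 - (F v).2)
    apply max_le
    · push_cast
      linarith
    · push_cast
      linarith
  exact this.continuous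

/-- a continuous real function with countable range is constant -/
theorem const_of_countable {f : ℝ → ℝ} (hf : Continuous f) (h : (range f).Countable) (a b : ℝ) :
    f a = f b := by
  have key : ∀ a b, ¬ f a < f b := by
    intro a b hab
    have h1 : Icc (f a) (f b) ⊆ range f := by
      intro y hy
      exact mem_range_of_exists_le_of_exists_ge hf ⟨a, hy.1⟩ ⟨b, hy.2⟩
    have h2 := h.mono h1
    have h3 := Cardinal.le_aleph0_iff_set_countable.2 h2
    rw [Cardinal.mk_Icc_real hab] at h3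
    exact absurd h3 (not_le.2 Cardinal.aleph0_lt_continuum)
  exact le_antisymm (not_lt.1 (key b a)) (not_lt.1 (key a b))

/-- the three multipliers -/
def N : Fin 3 → ℤ := ![-1, 0, 1]

/-- the three auxiliary maps -/
def Phi (F : ℝ × ℝ → ℝ × ℝ) (i : Fin 3) (x : ℝ × ℝ) : ℝ × ℝ := F x - N i • x

theorem Phi_continuous {F : ℝ × ℝ → ℝ × ℝ} (hF : Continuous F) (i : Fin 3) :
    Continuous (Phi F i) := by
  unfold Phi
  exact hF.sub (continuous_const_smul _)

/-- if the plane is covered by countably many fibres then the map is trivial -/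
theorem trivial_of_small {F : ℝ × ℝ → ℝ × ℝ} (hF : Continuous F) (h : Small (Phi F) univ) :
    ∃ (i : Fin 3) (g : ℝ × ℝ), ∀ x, F x = N i • x + g := by
  obtain ⟨S, hS, hcov⟩ := h
  have hcov' : ∀ x y : ℝ, ∃ p ∈ S, (F (x, y)).1 = N p.1 * x + p.2.1 ∧
      (F (x, y)).2 = N p.1 * y + p.2.2 := by
    intro x y
    obtain ⟨p, hp, h1⟩ := hcov (x, y) (mem_univ _)
    refine ⟨p, hp, ?_, ?_⟩
    · have h2 := congrArg Prod.fst h1
      simp only [Phi, Prod.fst_sub, Prod.smul_fst] at h2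
      rw [zsmul_eq_mul] at h2
      linarith
    · have h2 := congrArg Prod.snd h1
      simp only [Phi, Prod.snd_sub, Prod.smul_snd] at h2
      rw [zsmul_eq_mul] at h2
      linarith
  have h1 : ∀ x y : ℝ, (F (x, y)).1 = (F (x, 0)).1 := by
    intro x y
    refine const_of_countable (f := fun y => (F (x, y)).1) (by fun_prop) ?_ y 0
    refine (hS.image fun p => (N p.1 * x + p.2.1 : ℝ)).mono ?_
    rintro _ ⟨y, rfl⟩
    obtain ⟨p, hp, h2, _⟩ := hcov' x y
    exact ⟨p, hp, h2.symm⟩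
  have h2 : ∀ x y : ℝ, (F (x, y)).2 = (F (0, y)).2 := by
    intro x y
    refine const_of_countable (f := fun x => (F (x, y)).2) (by fun_prop) ?_ x 0
    refine (hS.image fun p => (N p.1 * y + p.2.2 : ℝ)).mono ?_
    rintro _ ⟨x, rfl⟩
    obtain ⟨p, hp, _, h2⟩ := hcov' x y
    exact ⟨p, hp, h2.symm⟩
  obtain ⟨a, ha⟩ : ∃ a : ℝ → ℝ, ∀ x, a x = (F (x, 0)).1 := ⟨_, fun _ => rfl⟩
  obtain ⟨b, hb⟩ : ∃ b : ℝ → ℝ, ∀ y, b y = (F (0, y)).2 := ⟨_, fun _ => rfl⟩
  have hac : Continuous a := by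
    have : a = fun x => (F (x, 0)).1 := funext ha
    rw [this]; fun_prop
  have hF1 : ∀ x y, (F (x, y)).1 = a x := fun x y => by rw [h1, ha]
  have hF2 : ∀ x y, (F (x, y)).2 = b y := fun x y => by rw [h2, hb]
  have h3 : ∀ s t : ℝ, a t - b (t + s) = a 0 - b s := by
    intro s t
    have h4 : (fun t => (F (t, t + s)).1 - (F (t, t + s)).2) t =
        (fun t => (F (t, t + s)).1 - (F (t, t + s)).2) 0 := by
      refine const_of_countable (f := fun t => (F (t, t + s)).1 - (F (t, t + s)).2)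
        (by fun_prop) ?_ t 0
      refine (hS.image fun p => (-(N p.1 * s) + p.2.1 - p.2.2 : ℝ)).mono ?_
      rintro _ ⟨t, rfl⟩
      obtain ⟨p, hp, h5, h6⟩ := hcov' t (t + s)
      refine ⟨p, hp, ?_⟩
      simp only
      rw [h5, h6]
      ring
    simp only [hF1, hF2, zero_add] at h4
    exact h4
  have h4 : ∀ t, b t = b 0 + a t - a 0 := by
    intro t
    have := h3 0 t
    rw [add_zero] at this
    linarith
  have hadd : ∀ s t, (a (s + t) - a 0) = (a s - a 0) + (a t - a 0) := by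
    intro s t
    have h5 := h3 t s
    have h6 := h4 (s + t)
    have h7 := h4 t
    linarith
  obtain ⟨L, hL⟩ : ∃ L : ℝ →+ ℝ, ∀ t, L t = a t - a 0 :=
    ⟨AddMonoidHom.mk' (fun t => a t - a 0) hadd, fun _ => rfl⟩
  have hLc : Continuous L := by
    have : (L : ℝ → ℝ) = fun t => a t - a 0 := funext hL
    rw [this]; fun_prop
  have hlin : ∀ t, a t = a 0 + L 1 * t := by
    intro t
    have h5 := (L.toRealLinearMap hLc).map_smul t 1
    simp only [smul_eq_mul, mul_one, AddMonoidHom.coe_toRealLinearMap] at h5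
    have h6 := hL t
    rw [h5] at h6
    linarith
  have hF' : ∀ x : ℝ × ℝ, F x = L 1 • x + (a 0, b 0) := by
    rintro ⟨x, y⟩
    ext
    · rw [hF1, hlin x]
      simp only [Prod.smul_mk, smul_eq_mul, Prod.fst_add]
      ring
    · rw [hF2, h4 y, hlin y]
      simp only [Prod.smul_mk, smul_eq_mul, Prod.snd_add]
      ring
  have hint : ∃ i, L 1 = (N i : ℝ) := by
    by_contra hcon
    push Not at hcon
    choose p hp hp2 using fun x => hcov x (mem_univ x)
    have hinj : Injective fun x : ℝ × ℝ => (⟨p x, hp x⟩ : S) := by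
      intro x y hxy
      have h5 : p x = p y := congrArg Subtype.val hxy
      have h6 := hp2 x
      have h7 := hp2 y
      rw [← h5] at h7
      have h8 := h6.trans h7.symm
      simp only [Phi, hF'] at h8
      have h9 : (L 1 - (N (p x).1 : ℝ)) • (x - y) = 0 := by
        have e1 : (N (p x).1 : ℤ) • x = (N (p x).1 : ℝ) • x := by
          rw [Int.cast_smul_eq_zsmul]
        have e2 : (N (p x).1 : ℤ) • y = (N (p x).1 : ℝ) • y := by
          rw [Int.cast_smul_eq_zsmul]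
        rw [e1, e2] at h8
        rw [sub_smul, smul_sub, smul_sub]
        have := sub_eq_zero.2 h8
        rw [← this]
        abel
      rcases smul_eq_zero.1 h9 with h | h
      · exact absurd (sub_eq_zero.1 h) (hcon _)
      · exact sub_eq_zero.1 h
    have : Countable S := hS.to_subtype
    have h10 : Countable (ℝ × ℝ) := hinj.countable
    have h11 : Countable ℝ := (Prod.mk_left_injective (0 : ℝ)).countable
    exact not_countable h11
  obtain ⟨i, hi⟩ := hint
  refine ⟨i, (a 0, b 0), fun x => ?_⟩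
  rw [hF' x, hi, Int.cast_smul_eq_zsmul]

/-- the Cantor sets used in the construction -/
theorem exists_e {F : ℝ × ℝ → ℝ × ℝ} (hF : NonExp F)
    (hnt : ¬ ∃ (i : Fin 3) (g : ℝ × ℝ), ∀ x, F x = N i • x + g) :
    ∃ e : (ℕ → Bool) → ℝ × ℝ, Injective e ∧
      ∀ m : ℤ, Injective fun s => F (e s) - m • e s := by
  obtain ⟨e, he⟩ := exists_cantor' (Phi_continuous hF.continuous)
    (fun h => hnt (trivial_of_small hF.continuous h))
  have hinj : Injective e := by
    intro s t hst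
    by_contra hne
    exact he s t hne 0 (by rw [hst])
  refine ⟨e, hinj, fun m s t hst => ?_⟩
  simp only at hst
  by_cases hm : ∃ i, N i = m
  · obtain ⟨i, rfl⟩ := hm
    by_contra hne
    exact he s t hne i hst
  · apply hinj
    have h2 : 2 ≤ |m| := by
      by_contra hlt
      apply hm
      have h3 : |m| ≤ 1 := by omega
      rw [abs_le] at h3
      obtain ⟨h4, h5⟩ := h3
      interval_cases m
      · exact ⟨0, rfl⟩
      · exact ⟨1, rfl⟩
      · exact ⟨2, rfl⟩
    have h3 : F (e s) - F (e t) = m • (e s - e t) := by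
      rw [smul_sub]
      have := sub_eq_zero.2 hst
      rw [← sub_eq_zero, ← this]
      abel
    have h4 : d1 (F (e s)) (F (e t)) = |(m : ℝ)| * d1 (e s) (e t) := by
      unfold d1
      have e1 := congrArg Prod.fst h3
      have e2 := congrArg Prod.snd h3
      simp only [Prod.fst_sub, Prod.snd_sub, Prod.smul_fst, Prod.smul_snd] at e1 e2
      rw [e1, e2, zsmul_eq_mul, zsmul_eq_mul, abs_mul, abs_mul]
      ring
    have h5 := hF (e s) (e t)
    rw [h4] at h5
    have h6 : (2 : ℝ) ≤ |(m : ℝ)| := by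
      have : ((2 : ℤ) : ℝ) ≤ ((|m| : ℤ) : ℝ) := Int.cast_le.2 h2
      simpa using this
    have h7 := d1_nonneg (e s) (e t)
    apply d1_eq_zero
    nlinarith

/-- the nontrivial non-expansive maps -/
def Bad : Type := {F : ℝ × ℝ → ℝ × ℝ //
  NonExp F ∧ ¬ ∃ (i : Fin 3) (g : ℝ × ℝ), ∀ x, F x = N i • x + g}

/-- the rational points -/
def Q : Set (ℝ × ℝ) := range fun p : ℚ × ℚ => ((p.1 : ℝ), (p.2 : ℝ))

theorem Q_countable : Q.Countable := countable_range _

theorem Q_dense : Dense Q := by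
  have : DenseRange fun p : ℚ × ℚ => ((p.1 : ℝ), (p.2 : ℝ)) :=
    Rat.denseRange_cast.prodMap Rat.denseRange_cast
  exact this

theorem mk_Bad : #Bad ≤ 𝔠 := by
  have h1 : Injective fun (F : Bad) (p : ℚ × ℚ) => F.1 ((p.1 : ℝ), (p.2 : ℝ)) := by
    intro F G h
    apply Subtype.ext
    apply Continuous.ext_on Q_dense F.2.1.continuous G.2.1.continuous
    rintro _ ⟨p, rfl⟩
    exact congrFun h p
  refine (mk_le_of_injective h1).trans ?_
  have h2 : #(ℝ × ℝ) = 𝔠 := by
    rw [mk_prod, lift_id, mk_real, mul_eq_self aleph0_le_continuum]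
  have h3 : #(ℚ × ℚ) = ℵ₀ := mk_denumerable _
  rw [← power_def, h2, h3, continuum_power_aleph0]

theorem exists_extension {G : Set (ℝ × ℝ)} (hG : Dense G) (f : G → G)
    (hf : ∀ u v : G, d1 (f u) (f v) ≤ d1 u v) :
    ∃ F : ℝ × ℝ → ℝ × ℝ, NonExp F ∧ ∀ u : G, F u = f u := by
  classical
  have hl1 : LipschitzOnWith 2 (fun x => if h : x ∈ G then ((f ⟨x, h⟩ : G) : ℝ × ℝ).1 else 0) G := by
    apply LipschitzOnWith.of_dist_le_mul
    intro u hu v hv
    rw [dif_pos hu, dif_pos hv]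
    have h1 := hf ⟨u, hu⟩ ⟨v, hv⟩
    unfold d1 at h1
    rw [Prod.dist_eq, Real.dist_eq, Real.dist_eq, Real.dist_eq]
    have h2 := le_max_left |u.1 - v.1| |u.2 - v.2|
    have h3 := le_max_right |u.1 - v.1| |u.2 - v.2|
    have h5 := abs_nonneg (((f ⟨u, hu⟩ : G) : ℝ × ℝ).2 - ((f ⟨v, hv⟩ : G) : ℝ × ℝ).2)
    push_cast
    simp only at h1 ⊢
    linarith
  have hl2 : LipschitzOnWith 2 (fun x => if h : x ∈ G then ((f ⟨x, h⟩ : G) : ℝ × ℝ).2 else 0) G := by
    apply LipschitzOnWith.of_dist_le_mul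
    intro u hu v hv
    rw [dif_pos hu, dif_pos hv]
    have h1 := hf ⟨u, hu⟩ ⟨v, hv⟩
    unfold d1 at h1
    rw [Prod.dist_eq, Real.dist_eq, Real.dist_eq, Real.dist_eq]
    have h2 := le_max_left |u.1 - v.1| |u.2 - v.2|
    have h3 := le_max_right |u.1 - v.1| |u.2 - v.2|
    have h5 := abs_nonneg (((f ⟨u, hu⟩ : G) : ℝ × ℝ).1 - ((f ⟨v, hv⟩ : G) : ℝ × ℝ).1)
    push_cast
    simp only at h1 ⊢
    linarith
  obtain ⟨g1, hg1, he1⟩ := hl1.extend_real
  obtain ⟨g2, hg2, he2⟩ := hl2.extend_real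
  have hc1 := hg1.continuous
  have hc2 := hg2.continuous
  have hFe : ∀ u : G, (g1 u, g2 u) = (f u : ℝ × ℝ) := by
    intro u
    have e1 := he1 u.2
    have e2 := he2 u.2
    simp only [Subtype.coe_prop, dif_pos, Subtype.coe_eta] at e1 e2
    ext
    · exact e1.symm
    · exact e2.symm
  refine ⟨fun x => (g1 x, g2 x), ?_, hFe⟩
  have hcl : IsClosed {p : (ℝ × ℝ) × (ℝ × ℝ) |
      d1 (g1 p.1, g2 p.1) (g1 p.2, g2 p.2) ≤ d1 p.1 p.2} := by
    unfold d1
    exact isClosed_le (by fun_prop) (by fun_prop)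
  have hd := hG.prod hG
  have hsub : G ×ˢ G ⊆ {p : (ℝ × ℝ) × (ℝ × ℝ) |
      d1 (g1 p.1, g2 p.1) (g1 p.2, g2 p.2) ≤ d1 p.1 p.2} := by
    rintro ⟨u, v⟩ ⟨hu, hv⟩
    have h1 := hf ⟨u, hu⟩ ⟨v, hv⟩
    rw [← hFe, ← hFe] at h1
    exact h1
  have huniv := hcl.closure_subset_iff.2 hsub
  rw [hd.closure_eq] at huniv
  intro u v
  exact huniv (mem_univ (u, v))

theorem main : ∃ G : AddSubgroup (ℝ × ℝ), Dense (G : Set (ℝ × ℝ)) ∧
    ∀ f : G → G, (∀ u v : G, d1 (f u) (f v) ≤ d1 u v) →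
      ∃ (i : Fin 3) (g : ℝ × ℝ), ∀ u : G, (f u : ℝ × ℝ) = N i • (u : ℝ × ℝ) + g := by
  choose e he hF using fun F : Bad => exists_e F.2.1 F.2.2
  obtain ⟨x, hx⟩ := exists_choice mk_Bad Q_countable (fun F : Bad => F.1) e he hF
  have hdense : Dense ((Submodule.span ℤ (Q ∪ range x)).toAddSubgroup : Set (ℝ × ℝ)) := by
    refine Q_dense.mono ?_
    intro y hy
    exact Submodule.subset_span (Or.inl hy)
  refine ⟨(Submodule.span ℤ (Q ∪ range x)).toAddSubgroup, hdense, ?_⟩
  intro f hf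
  obtain ⟨F, hF1, hF2⟩ := exists_extension hdense f hf
  by_cases h : ∃ (i : Fin 3) (g : ℝ × ℝ), ∀ x, F x = N i • x + g
  · obtain ⟨i, g, hg⟩ := h
    exact ⟨i, g, fun u => by rw [← hF2 u, hg]⟩
  · exfalso
    have h1 : x ⟨F, hF1, h⟩ ∈ Submodule.span ℤ (Q ∪ range x) :=
      Submodule.subset_span (Or.inr ⟨_, rfl⟩)
    have h2 := hx ⟨F, hF1, h⟩
    apply h2
    have h3 := hF2 ⟨x ⟨F, hF1, h⟩, h1⟩
    simp only at h3 ⊢
    rw [h3]
    exact (f ⟨x ⟨F, hF1, h⟩, h1⟩).2

end Q183.PlasticMain
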